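import Pool.Agent.SLB.Th

/-!
# The one body integrals of the symplectic ensemble

`sum_ph` : `∑_{k<N} ph k ² = dth / π (N - ∑ cos (2 (k+1) th))`;
`log_part` : `∫_0^∞ (1/2) log (1 + tn²) cos (2 k th) dth = π / (4 k)`;
`f_part` : `|∫_0^∞ f cos (2 k th) dth| ≤ ‖f'‖₁ / (2 k)`;
`one_body_ge` : `∑_{k<N} ∫ ψ ph k² ≥ N (1/π) ∫ ψ dth - C log (N+1)`.
-/

set_option autoImplicit false

open Matrix Finset MeasureTheory Real Filter Topology
open Set (Ioi Ioo Ici)

namespace Pool.Agent.SLB

noncomputable section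

/-- `tan (th / 2)` -/
def tn (t : ℝ) : ℝ := 2 / √3 * Real.sinh (8 / 3 * t)

theorem tn_sq (t : ℝ) : 1 + tn t ^ 2 = (1 + 2 * Real.cosh (16 / 3 * t)) / 3 := one_add_sq_arg t

theorem tn_pos {t : ℝ} (ht : 0 < t) : 0 < tn t := by
  unfold tn
  have h1 := sqrt3_pos
  have h2 : 0 < Real.sinh (8 / 3 * t) := Real.sinh_pos_iff.2 (by positivity)
  positivity

theorem tn_nonneg {t : ℝ} (ht : 0 ≤ t) : 0 ≤ tn t := by
  unfold tn
  have h1 := sqrt3_pos
  have h2 : 0 ≤ Real.sinh (8 / 3 * t) := Real.sinh_nonneg_iff.2 (by positivity)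
  positivity

@[fun_prop]
theorem continuous_tn : Continuous tn := by unfold tn; fun_prop

theorem cos_th' (t : ℝ) : Real.cos (th t) * (1 + tn t ^ 2) = 1 - tn t ^ 2 := by
  rw [cos_th, tn_sq]
  have h := den_pos t
  have h2 : tn t ^ 2 = (2 * Real.cosh (16 / 3 * t) - 2) / 3 := sq_arg t
  rw [h2]
  field_simp
  ring

theorem sin_th' (t : ℝ) : Real.sin (th t) * (1 + tn t ^ 2) = 2 * tn t := by
  have h1 : Real.sin (th t) = 2 * Real.sin (Real.arctan (tn t)) * Real.cos (Real.arctan (tn t)) := by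
    unfold th
    rw [Real.sin_two_mul]
    rfl
  have h2 : Real.sin (Real.arctan (tn t)) = tn t * Real.cos (Real.arctan (tn t)) := by
    have hc := Real.cos_arctan_pos (tn t)
    have := Real.tan_arctan (tn t)
    rw [Real.tan_eq_sin_div_cos] at this
    field_simp at this
    linarith
  have h3 : Real.cos (Real.arctan (tn t)) ^ 2 * (1 + tn t ^ 2) = 1 := by
    rw [Real.cos_sq_arctan]
    have : 0 < 1 + tn t ^ 2 := by positivity
    field_simp
  rw [h1, h2]
  linear_combination (2 * tn t) * h3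

theorem tn_sin (t : ℝ) : tn t * Real.sin (th t) = 1 - Real.cos (th t) := by
  have h1 := cos_th' t
  have h2 := sin_th' t
  have h3 : 0 < 1 + tn t ^ 2 := by positivity
  have h4 : (tn t * Real.sin (th t) - (1 - Real.cos (th t))) * (1 + tn t ^ 2) = 0 := by
    linear_combination tn t * h2 + h1
  rcases mul_eq_zero.1 h4 with h | h
  · linarith
  · exact absurd h h3.ne'

theorem tn_cos (t : ℝ) : tn t * (1 + Real.cos (th t)) = Real.sin (th t) := by
  have h1 := cos_th' t
  have h2 := sin_th' t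
  have h3 : 0 < 1 + tn t ^ 2 := by positivity
  have h4 : (tn t * (1 + Real.cos (th t)) - Real.sin (th t)) * (1 + tn t ^ 2) = 0 := by
    linear_combination tn t * h1 - h2
  rcases mul_eq_zero.1 h4 with h | h
  · linarith
  · exact absurd h h3.ne'

theorem tn_rec (m : ℕ) (t : ℝ) : tn t * Real.sin (((m : ℝ) + 1) * th t) =
    Real.cos ((m : ℝ) * th t) - Real.cos (((m : ℝ) + 1) * th t) - tn t * Real.sin ((m : ℝ) * th t) := by
  have h1 := tn_sin t
  have h2 := tn_cos t
  rw [add_mul, one_mul, Real.sin_add, Real.cos_add]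
  linear_combination Real.cos ((m : ℝ) * th t) * h1 + Real.sin ((m : ℝ) * th t) * h2

theorem tn_sin_bound (m : ℕ) (t : ℝ) : |tn t * Real.sin ((m : ℝ) * th t)| ≤ 2 * m := by
  induction m with
  | zero => simp
  | succ m ih =>
    have h := tn_rec m t
    push_cast at h ⊢
    rw [h]
    have h1 := Real.abs_cos_le_one ((m : ℝ) * th t)
    have h2 := Real.abs_cos_le_one (((m : ℝ) + 1) * th t)
    rw [abs_le] at *
    constructor <;> linarith [h1.1, h1.2, h2.1, h2.2, ih.1, ih.2]

theorem integrable_dth : IntegrableOn dth (Ioi 0) := by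
  have h := (integrable_th (fun _ => (1 : ℝ))).2 (by simp)
  simpa using h

theorem integral_dth_cos (m : ℕ) : ∫ t in Ioi 0, dth t * Real.cos ((m : ℝ) * th t) =
    if m = 0 then π else 0 := by
  rw [integral_th (fun x => Real.cos ((m : ℝ) * x)), ← integral_Ioc_eq_integral_Ioo,
    ← intervalIntegral.integral_of_le Real.pi_pos.le, integral_cos_nat]

theorem integrable_bdd {b : ℝ → ℝ} (hb : Continuous b) {M : ℝ} (hM : ∀ t, 0 < t → |b t| ≤ M) :
    IntegrableOn (fun t => dth t * b t) (Ioi 0) := by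
  have h1 : IntegrableOn (fun t => M * dth t) (Ioi 0) := integrable_dth.const_mul M
  refine Integrable.mono' h1 ((continuous_dth.mul hb).aestronglyMeasurable) ?_
  refine (ae_restrict_iff' measurableSet_Ioi).2 (Eventually.of_forall fun t ht => ?_)
  rw [Real.norm_eq_abs, abs_mul, abs_of_pos (dth_pos t), mul_comm]
  exact mul_le_mul_of_nonneg_right (hM t ht) (dth_pos t).le

theorem continuous_tn_sin (m : ℕ) : Continuous fun t => tn t * Real.sin ((m : ℝ) * th t) := by
  have := continuous_th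
  fun_prop

/-- `∫ tan (x/2) sin (m x) dx` -/
theorem integral_tn_sin (m : ℕ) : ∫ t in Ioi 0, dth t * (tn t * Real.sin (((m : ℝ) + 1) * th t)) =
    (-1) ^ m * π := by
  have hcos : ∀ m : ℕ, IntegrableOn (fun t => dth t * Real.cos ((m : ℝ) * th t)) (Ioi 0) := fun m =>
    integrable_bdd (by have := continuous_th; fun_prop) (M := 1) fun t _ => Real.abs_cos_le_one _
  have hts : ∀ m : ℕ, IntegrableOn (fun t => dth t * (tn t * Real.sin ((m : ℝ) * th t))) (Ioi 0) :=
    fun m => integrable_bdd (continuous_tn_sin m) (M := 2 * m) fun t _ => tn_sin_bound m t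
  have hstep : ∀ m : ℕ, ∫ t in Ioi 0, dth t * (tn t * Real.sin (((m : ℝ) + 1) * th t)) =
      (if m = 0 then π else 0) - ∫ t in Ioi 0, dth t * (tn t * Real.sin ((m : ℝ) * th t)) := by
    intro m
    have e : (fun t => dth t * (tn t * Real.sin (((m : ℝ) + 1) * th t))) = fun t =>
        (dth t * Real.cos ((m : ℝ) * th t) - dth t * Real.cos (((m + 1 : ℕ) : ℝ) * th t)) -
          dth t * (tn t * Real.sin ((m : ℝ) * th t)) := by
      funext t
      rw [tn_rec]
      push_cast
      ring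
    have hA : Integrable (fun t => dth t * Real.cos ((m : ℝ) * th t) -
        dth t * Real.cos (((m + 1 : ℕ) : ℝ) * th t)) (volume.restrict (Ioi 0)) :=
      (hcos m).sub (hcos (m + 1))
    rw [e, integral_sub hA (hts m),
      integral_sub (hcos m) (hcos (m + 1)), integral_dth_cos, integral_dth_cos]
    simp
  induction m with
  | zero =>
    rw [hstep]
    simp
  | succ m ih =>
    rw [hstep]
    push_cast
    rw [ih]
    simp [pow_succ]

theorem sum_ph (N : ℕ) (t : ℝ) : ∑ k : Fin N, ph k t * ph k t =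
    (1 / π) * (N * dth t - ∑ k ∈ range N, dth t * Real.cos (((2 * (k + 1) : ℕ) : ℝ) * th t)) := by
  simp_rw [ph_mul]
  rw [Finset.sum_range]
  have h1 : ∀ k : Fin N, dth t * (2 / π * (Real.sin (((k : ℕ) + 1 : ℝ) * th t) *
      Real.sin (((k : ℕ) + 1 : ℝ) * th t))) =
      1 / π * (dth t - dth t * Real.cos (((2 * ((k : ℕ) + 1) : ℕ) : ℝ) * th t)) := by
    intro k
    have e : ((2 * ((k : ℕ) + 1) : ℕ) : ℝ) * th t = 2 * ((((k : ℕ) : ℝ) + 1) * th t) := by
      push_cast; ring
    rw [e, Real.cos_two_mul, Real.cos_sq']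
    ring
  rw [Finset.sum_congr rfl fun k _ => h1 k, ← mul_sum, sum_sub_distrib]
  simp

/-- half of `q`: `-log cos (th / 2)` -/
def Lq (t : ℝ) : ℝ := 1 / 2 * Real.log (1 + tn t ^ 2)

theorem hasDerivAt_tn (t : ℝ) : HasDerivAt tn (dth t * (1 + tn t ^ 2) / 2) t := by
  have h1 : HasDerivAt (fun t : ℝ => 8 / 3 * t) (8 / 3) t := by
    simpa using (hasDerivAt_id t).const_mul (8 / 3)
  have h2 := (h1.sinh).const_mul (2 / √3)
  refine h2.congr_deriv ?_
  rw [tn_sq]
  unfold dth
  have h3 := den_pos t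
  have h4 := sqrt3_pos
  field_simp
  ring

theorem hasDerivAt_Lq (t : ℝ) : HasDerivAt Lq (tn t * dth t / 2) t := by
  have h1 : HasDerivAt (fun x => 1 + tn x ^ 2) (2 * tn t * (dth t * (1 + tn t ^ 2) / 2)) t := by
    have := ((hasDerivAt_tn t).fun_pow 2).const_add 1
    simpa using this
  have h0 : (1 + tn t ^ 2) ≠ 0 := by positivity
  have h2 := (h1.log h0).const_mul (1 / 2)
  refine h2.congr_deriv ?_
  field_simp

theorem continuous_Lq : Continuous Lq :=
  continuous_iff_continuousAt.2 fun t => (hasDerivAt_Lq t).continuousAt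

theorem Lq_nonneg (t : ℝ) : 0 ≤ Lq t := by
  unfold Lq
  have := Real.log_nonneg (show (1 : ℝ) ≤ 1 + tn t ^ 2 by nlinarith [sq_nonneg (tn t)])
  positivity

theorem Lq_le {t : ℝ} (ht : 0 ≤ t) : Lq t ≤ 2 * √(tn t) := by
  unfold Lq
  have h0 := tn_nonneg ht
  have h1 : Real.log (1 + tn t ^ 2) ≤ Real.log ((1 + tn t) ^ 2) := by
    apply Real.log_le_log (by positivity)
    nlinarith
  rw [Real.log_pow] at h1
  have h2 : Real.log (1 + tn t) ≤ 2 * √(tn t) := by
    have h3 : (1 + tn t) ≤ (1 + √(tn t)) ^ 2 := by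
      have := Real.sq_sqrt h0
      have := Real.sqrt_nonneg (tn t)
      nlinarith
    calc Real.log (1 + tn t) ≤ Real.log ((1 + √(tn t)) ^ 2) :=
          Real.log_le_log (by positivity) h3
      _ = 2 * Real.log (1 + √(tn t)) := by rw [Real.log_pow]; norm_num
      _ ≤ 2 * √(tn t) := by
        have := Real.log_le_sub_one_of_pos (show 0 < 1 + √(tn t) by positivity)
        linarith
  push_cast at h1
  linarith

theorem integrable_Lq : IntegrableOn (fun t => dth t * Lq t) (Ioi 0) := by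
  have e : (fun t => dth t * Lq t) = fun t => dth t * (fun x => -Real.log (Real.cos (x / 2))) (th t) := by
    funext t
    simp only
    congr 1
    have h1 : Real.cos (th t / 2) = (√(1 + tn t ^ 2))⁻¹ := by
      unfold th
      rw [show 2 * Real.arctan (2 / √3 * Real.sinh (8 / 3 * t)) / 2 = Real.arctan (tn t) by
        unfold tn; ring, Real.cos_arctan]
      simp [one_div]
    rw [h1, Real.log_inv, neg_neg, Real.log_sqrt (by positivity)]
    unfold Lq
    ring
  rw [e, integrable_th (fun x => -Real.log (Real.cos (x / 2)))]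
  have h1 : IntervalIntegrable (Real.log ∘ Real.cos) volume 0 (π / 2) :=
    intervalIntegrable_log_cos
  have h2 : IntervalIntegrable (fun x => Real.log (Real.cos (x / 2))) volume 0 π := by
    have h3 := h1.comp_mul_left (c := 1 / 2)
    simp only [Function.comp_apply, one_div, div_inv_eq_mul] at h3
    have e1 : π / 2 * 2 = π := by ring
    rw [e1, zero_mul] at h3
    have e2 : (fun x : ℝ => Real.log (Real.cos (2⁻¹ * x))) =
        fun x : ℝ => Real.log (Real.cos (x / 2)) := by
      funext x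
      rw [show (2 : ℝ)⁻¹ * x = x / 2 by ring]
    rwa [e2] at h3
  have h3 := (intervalIntegrable_iff_integrableOn_Ioo_of_le Real.pi_pos.le).1 h2
  exact h3.neg

theorem tn_tendsto : Tendsto tn atTop atTop := by
  unfold tn
  have h1 := sqrt3_pos
  have h2 : Tendsto (fun t : ℝ => Real.sinh (8 / 3 * t)) atTop atTop := by
    refine tendsto_atTop_mono' atTop ?_ (tendsto_id.const_mul_atTop (show (0 : ℝ) < 8 / 3 by norm_num))
    filter_upwards [eventually_ge_atTop 0] with t ht
    simp only [id]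
    exact Real.self_le_sinh_iff.2 (by positivity)
  exact h2.const_mul_atTop (by positivity)

theorem sin_le {t : ℝ} (ht : 0 < t) (m : ℕ) : |Real.sin ((m : ℝ) * th t)| ≤ 2 * m / tn t := by
  have h1 := tn_sin_bound m t
  have h2 := tn_pos ht
  rw [abs_mul, abs_of_pos h2] at h1
  rw [le_div_iff₀ h2, mul_comm]
  exact h1

/-- boundary terms vanish for functions growing slower than `tn` -/
theorem tendsto_sin {f : ℝ → ℝ} (C : ℝ) (hf : ∀ t, 1 ≤ t → |f t| ≤ C * √(tn t)) (m : ℕ) :
    Tendsto (fun t => f t * Real.sin ((m : ℝ) * th t)) atTop (𝓝 0) := by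
  have h1 : Tendsto (fun t => C * (2 * m) * (√(tn t))⁻¹) atTop (𝓝 0) := by
    have h2 : Tendsto (fun t => (√(tn t))⁻¹) atTop (𝓝 0) :=
      tendsto_inv_atTop_zero.comp (Real.tendsto_sqrt_atTop.comp tn_tendsto)
    simpa using h2.const_mul (C * (2 * m))
  refine squeeze_zero_norm' ?_ h1
  filter_upwards [eventually_ge_atTop 1] with t ht
  have ht0 : 0 < t := by linarith
  have h2 := tn_pos ht0
  have h3 := hf t ht
  have h4 := sin_le ht0 m
  have h5 : 0 < √(tn t) := Real.sqrt_pos.2 h2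
  rw [Real.norm_eq_abs, abs_mul]
  calc |f t| * |Real.sin ((m : ℝ) * th t)| ≤ (C * √(tn t)) * (2 * m / tn t) := by
        gcongr
        exact (abs_nonneg _).trans h3
    _ = _ := by
        have h6 : tn t = √(tn t) * √(tn t) := (Real.mul_self_sqrt h2.le).symm
        field_simp
        rw [h6]
        field_simp
        rw [Real.sqrt_sq h5.le]

/-- integration by parts -/
theorem parts {f f' : ℝ → ℝ} (C B : ℝ) (hc : ∀ t, 0 < t → t ≤ 1 → |f t| ≤ B)
    (hd : ∀ t, 0 < t → HasDerivAt f (f' t) t) (hf : ∀ t, 1 ≤ t → |f t| ≤ C * √(tn t)) (m : ℕ)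
    (h1 : IntegrableOn (fun t => f' t * Real.sin ((m : ℝ) * th t)) (Ioi 0))
    (h2 : IntegrableOn (fun t => dth t * f t * Real.cos ((m : ℝ) * th t)) (Ioi 0)) :
    (m : ℝ) * ∫ t in Ioi 0, dth t * f t * Real.cos ((m : ℝ) * th t) =
      - ∫ t in Ioi 0, f' t * Real.sin ((m : ℝ) * th t) := by
  have hth := continuous_th
  have hF : ∫ t in Ioi 0, (f' t * Real.sin ((m : ℝ) * th t) +
      (m : ℝ) * (dth t * f t * Real.cos ((m : ℝ) * th t))) =
      0 - f 0 * Real.sin ((m : ℝ) * th 0) := by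
    refine integral_Ioi_of_hasDerivAt_of_tendsto (f := fun t => f t * Real.sin ((m : ℝ) * th t))
      ?_ ?_ (h1.add (h2.const_mul _)) (tendsto_sin C hf m)
    · have e0 : f 0 * Real.sin ((m : ℝ) * th 0) = 0 := by simp [th_zero]
      rw [ContinuousWithinAt, e0]
      have hs : Tendsto (fun t => |B| * |Real.sin ((m : ℝ) * th t)|) (𝓝[Ici 0] 0) (𝓝 0) := by
        have : Continuous fun t => |B| * |Real.sin ((m : ℝ) * th t)| := by fun_prop
        have h5 := this.tendsto 0
        rw [th_zero] at h5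
        simp only [mul_zero, Real.sin_zero, abs_zero] at h5
        exact h5.mono_left nhdsWithin_le_nhds
      refine squeeze_zero_norm' ?_ hs
      have h6 : ∀ᶠ t in 𝓝[Ici 0] (0 : ℝ), t ≤ 1 :=
        nhdsWithin_le_nhds (Iic_mem_nhds one_pos)
      filter_upwards [h6, self_mem_nhdsWithin] with t h7 h8
      rw [Real.norm_eq_abs, abs_mul]
      rcases eq_or_lt_of_le (show 0 ≤ t from h8) with h9 | h9
      · rw [← h9, th_zero]; simp
      · exact mul_le_mul_of_nonneg_right ((hc t h9 h7).trans (le_abs_self B)) (abs_nonneg _)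
    · intro t ht
      have h3 := (hd t ht).mul (((hasDerivAt_th t).const_mul (m : ℝ)).sin)
      refine h3.congr_deriv ?_
      ring
  rw [integral_add h1 (h2.const_mul _), integral_const_mul, th_zero] at hF
  simp only [mul_zero, Real.sin_zero, sub_zero] at hF
  linarith

theorem integrable_mul_bdd {f b : ℝ → ℝ} (hf : IntegrableOn f (Ioi 0)) (hb : Continuous b) {M : ℝ}
    (hM : ∀ t, |b t| ≤ M) : IntegrableOn (fun t => f t * b t) (Ioi 0) :=
  hf.mul_bdd (c := M) hb.aestronglyMeasurable (Eventually.of_forall fun t => hM t)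

/-- **the logarithmic part** -/
theorem log_part (k : ℕ) : ∫ t in Ioi 0, dth t * Lq t * Real.cos (((2 * (k + 1) : ℕ) : ℝ) * th t) =
    π / (4 * (k + 1)) := by
  have hth := continuous_th
  have h1 : IntegrableOn (fun t => tn t * dth t / 2 * Real.sin (((2 * (k + 1) : ℕ) : ℝ) * th t))
      (Ioi 0) := by
    have := (integrable_bdd (continuous_tn_sin (2 * (k + 1))) (M := 2 * ((2 * (k + 1) : ℕ) : ℝ))
      fun t _ => tn_sin_bound _ t).const_mul (1 / 2)
    refine this.congr (Eventually.of_forall fun t => ?_)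
    simp only
    ring
  have h2 : IntegrableOn (fun t => dth t * Lq t * Real.cos (((2 * (k + 1) : ℕ) : ℝ) * th t))
      (Ioi 0) := integrable_mul_bdd integrable_Lq (by fun_prop) (M := 1) fun t => Real.abs_cos_le_one _
  have h3 := parts (f := Lq) 2 (2 * √(tn 1)) (fun t ht ht1 => by
      rw [abs_of_nonneg (Lq_nonneg t)]
      refine (Lq_le ht.le).trans ?_
      gcongr
      unfold tn
      have := sqrt3_pos
      gcongr
      exact Real.sinh_le_sinh.2 (by linarith)) (fun t _ => hasDerivAt_Lq t)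
    (fun t ht => by
      rw [abs_of_nonneg (Lq_nonneg t)]
      exact Lq_le (by linarith)) (2 * (k + 1)) h1 h2
  have h4 := integral_tn_sin (2 * k + 1)
  have h5 : ∫ t in Ioi 0, tn t * dth t / 2 * Real.sin (((2 * (k + 1) : ℕ) : ℝ) * th t) =
      1 / 2 * ∫ t in Ioi 0, dth t * (tn t * Real.sin ((((2 * k + 1 : ℕ) : ℝ) + 1) * th t)) := by
    rw [← integral_const_mul]
    refine setIntegral_congr_fun measurableSet_Ioi fun t _ => ?_
    push_cast
    ring_nf
  rw [h5, h4] at h3
  have h6 : ((-1 : ℝ)) ^ (2 * k + 1) = -1 := by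
    rw [pow_succ, pow_mul]; simp
  rw [h6] at h3
  have h7 : (0 : ℝ) < ((2 * (k + 1) : ℕ) : ℝ) := by positivity
  push_cast at h3 h7
  have h8 : ∫ t in Ioi 0, dth t * Lq t * Real.cos (2 * ((k : ℝ) + 1) * th t) = π / (4 * (k + 1)) := by
    field_simp
    linarith
  push_cast
  exact h8

/-- **the smooth part** -/
theorem f_part {f f' : ℝ → ℝ} (M : ℝ)
    (hd : ∀ t, 0 < t → HasDerivAt f (f' t) t) (hf : ∀ t, 0 < t → |f t| ≤ M)
    (hi : IntegrableOn f' (Ioi 0)) (hfi : IntegrableOn (fun t => dth t * f t) (Ioi 0)) (k : ℕ) :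
    |∫ t in Ioi 0, dth t * f t * Real.cos (((2 * (k + 1) : ℕ) : ℝ) * th t)| ≤
      (∫ t in Ioi 0, |f' t|) / (2 * (k + 1)) := by
  have hth := continuous_th
  have h1 : IntegrableOn (fun t => f' t * Real.sin (((2 * (k + 1) : ℕ) : ℝ) * th t)) (Ioi 0) :=
    integrable_mul_bdd hi (by fun_prop) (M := 1) fun t => Real.abs_sin_le_one _
  have h2 : IntegrableOn (fun t => dth t * f t * Real.cos (((2 * (k + 1) : ℕ) : ℝ) * th t))
      (Ioi 0) := integrable_mul_bdd hfi (by fun_prop) (M := 1) fun t => Real.abs_cos_le_one _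
  have hM : 0 ≤ M := (abs_nonneg _).trans (hf 1 one_pos)
  have h3 := parts (f := f) (M / √(tn 1)) M (fun t ht _ => hf t ht) hd (fun t ht => by
    have h4 : 0 < √(tn 1) := Real.sqrt_pos.2 (tn_pos one_pos)
    have h5 : √(tn 1) ≤ √(tn t) := by
      apply Real.sqrt_le_sqrt
      unfold tn
      have := sqrt3_pos
      gcongr
      exact Real.sinh_le_sinh.2 (by linarith)
    refine (hf t (by linarith)).trans ?_
    rw [div_mul_eq_mul_div, le_div_iff₀ h4]
    gcongr) (2 * (k + 1)) h1 h2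
  have h7 : (0 : ℝ) < ((2 * (k + 1) : ℕ) : ℝ) := by positivity
  have h8 : |∫ t in Ioi 0, f' t * Real.sin (((2 * (k + 1) : ℕ) : ℝ) * th t)| ≤
      ∫ t in Ioi 0, |f' t| := by
    refine (abs_integral_le_integral_abs).trans ?_
    refine integral_mono h1.abs hi.abs fun t => ?_
    simp only
    rw [abs_mul]
    exact mul_le_of_le_one_right (abs_nonneg _) (Real.abs_sin_le_one _)
  have h9 : ((2 * (k + 1) : ℕ) : ℝ) *
      |∫ t in Ioi 0, dth t * f t * Real.cos (((2 * (k + 1) : ℕ) : ℝ) * th t)| ≤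
      ∫ t in Ioi 0, |f' t| := by
    rw [← abs_of_pos h7, ← abs_mul, abs_of_pos h7, h3, abs_neg]
    exact h8
  push_cast at h9 h7 ⊢
  rw [le_div_iff₀ h7, mul_comm]
  exact h9

theorem sum_inv_le (N : ℕ) : ∑ k ∈ range N, 1 / ((k : ℝ) + 1) ≤ 3 * Real.log (N + 1) := by
  rcases Nat.eq_zero_or_pos N with h | h
  · subst h; simp
  · have h1 : ∑ k ∈ range N, 1 / ((k : ℝ) + 1) ≤ 1 + Real.log N := by
      have := harmonic_le_one_add_log N
      have h2 : ((harmonic N : ℚ) : ℝ) = ∑ k ∈ range N, 1 / ((k : ℝ) + 1) := by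
        simp [harmonic]
      rwa [h2] at this
    have h3 : Real.log N ≤ Real.log (N + 1) := by
      apply Real.log_le_log (by exact_mod_cast h)
      linarith
    have h4 : Real.log 2 ≤ Real.log (N + 1) := by
      apply Real.log_le_log (by norm_num)
      have : (1 : ℝ) ≤ N := by exact_mod_cast h
      linarith
    have h5 := Real.log_two_gt_d9
    linarith

/-- **one body lower bound** -/
theorem one_body_ge {f f' : ℝ → ℝ} (M : ℝ)
    (hd : ∀ t, 0 < t → HasDerivAt f (f' t) t) (hf : ∀ t, 0 < t → |f t| ≤ M)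
    (hi : IntegrableOn f' (Ioi 0)) (hfi : IntegrableOn (fun t => dth t * f t) (Ioi 0)) :
    ∃ C : ℝ, 0 ≤ C ∧ ∀ N : ℕ, (N : ℝ) * (1 / π * ∫ t in Ioi 0, dth t * (Lq t + f t)) -
      C * Real.log (N + 1) ≤ ∑ k : Fin N, ∫ t in Ioi 0, (Lq t + f t) * (ph k t * ph k t) := by
  have hth := continuous_th
  set A := ∫ t in Ioi 0, |f' t| with hA
  have hA0 : 0 ≤ A := integral_nonneg fun t => abs_nonneg _
  have hpi := Real.pi_pos
  refine ⟨3 * (1 / 4 + A / (2 * π)), by positivity, fun N => ?_⟩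
  have hs : IntegrableOn (fun t => dth t * (Lq t + f t)) (Ioi 0) := by
    have := integrable_Lq.add hfi
    refine this.congr (Eventually.of_forall fun t => ?_)
    simp only [Pi.add_apply]
    ring
  have hcos : ∀ m : ℕ, IntegrableOn (fun t => dth t * (Lq t + f t) * Real.cos ((m : ℝ) * th t))
      (Ioi 0) := fun m =>
    integrable_mul_bdd hs (by fun_prop) (M := 1) fun t => Real.abs_cos_le_one _
  have h1 : ∀ k : ℕ, ∫ t in Ioi 0, (Lq t + f t) * (ph k t * ph k t) =
      1 / π * ((∫ t in Ioi 0, dth t * (Lq t + f t)) -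
        ∫ t in Ioi 0, dth t * (Lq t + f t) * Real.cos (((2 * (k + 1) : ℕ) : ℝ) * th t)) := by
    intro k
    rw [← integral_sub hs (hcos _), ← integral_const_mul]
    refine setIntegral_congr_fun measurableSet_Ioi fun t _ => ?_
    simp only [ph_mul]
    have e : ((2 * (k + 1) : ℕ) : ℝ) * th t = 2 * (((k : ℝ) + 1) * th t) := by
      push_cast; ring
    rw [e, Real.cos_two_mul, Real.cos_sq']
    field_simp
    ring
  have h2 : ∀ k : ℕ, ∫ t in Ioi 0, dth t * (Lq t + f t) *
      Real.cos (((2 * (k + 1) : ℕ) : ℝ) * th t) ≤ (π / 4 + A / 2) * (1 / ((k : ℝ) + 1)) := by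
    intro k
    have e : ∫ t in Ioi 0, dth t * (Lq t + f t) * Real.cos (((2 * (k + 1) : ℕ) : ℝ) * th t) =
        (∫ t in Ioi 0, dth t * Lq t * Real.cos (((2 * (k + 1) : ℕ) : ℝ) * th t)) +
        ∫ t in Ioi 0, dth t * f t * Real.cos (((2 * (k + 1) : ℕ) : ℝ) * th t) := by
      rw [← integral_add]
      · refine setIntegral_congr_fun measurableSet_Ioi fun t _ => ?_
        ring
      · exact integrable_mul_bdd integrable_Lq (by fun_prop) (M := 1) fun t => Real.abs_cos_le_one _
      · exact integrable_mul_bdd hfi (by fun_prop) (M := 1) fun t => Real.abs_cos_le_one _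
    rw [e, log_part]
    have h3 := (le_abs_self _).trans (f_part M hd hf hi hfi k)
    have h4 : π / (4 * ((k : ℝ) + 1)) + A / (2 * (k + 1)) = (π / 4 + A / 2) * (1 / ((k : ℝ) + 1)) := by
      field_simp
    linarith
  have h3 : ∑ k : Fin N, ∫ t in Ioi 0, (Lq t + f t) * (ph k t * ph k t) =
      ∑ k ∈ range N, ∫ t in Ioi 0, (Lq t + f t) * (ph k t * ph k t) :=
    (Finset.sum_range fun k => ∫ t in Ioi 0, (Lq t + f t) * (ph k t * ph k t)).symm
  rw [h3]
  simp_rw [h1]
  rw [← mul_sum, sum_sub_distrib]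
  simp only [sum_const, card_range, nsmul_eq_mul]
  have h4 : ∑ k ∈ range N, ∫ t in Ioi 0, dth t * (Lq t + f t) *
      Real.cos (((2 * (k + 1) : ℕ) : ℝ) * th t) ≤ (π / 4 + A / 2) * (3 * Real.log (N + 1)) := by
    refine (sum_le_sum fun k _ => h2 k).trans ?_
    rw [← mul_sum]
    exact mul_le_mul_of_nonneg_left (sum_inv_le N) (by positivity)
  have h5 : 1 / π * ((π / 4 + A / 2) * (3 * Real.log (N + 1))) =
      3 * (1 / 4 + A / (2 * π)) * Real.log (N + 1) := by
    field_simp
  have h6 : 1 / π * (∑ k ∈ range N, ∫ t in Ioi 0, dth t * (Lq t + f t) *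
      Real.cos (((2 * (k + 1) : ℕ) : ℝ) * th t)) ≤ 3 * (1 / 4 + A / (2 * π)) * Real.log (N + 1) := by
    rw [← h5]
    exact mul_le_mul_of_nonneg_left h4 (by positivity)
  rw [mul_sub]
  linarith

end

end Pool.Agent.SLB
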