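import Pool.Agent.NUP.MF.Profile
import Pool.Agent.NUP.MF.Bulk2

/-!
# The positive folded `A` gas: definitions (nu34/52LB)

* `T t = (2/√3) sinh (8t/3)`: uniformising map of the sea, `G = (1/π) arctan T`, `th = 2 arctan T`;
* `q t = log (1 + T t ^ 2)`;
* `rr z = log w z - 2 log |2 sinh (8z/3)|`, `rr 0 = 2 log (3 cos l / 8)`;
* `b1`: boundary factor of one quantum; `Ph = log b1 - (1/2) log w (2t) - log cos l`;
* `psi`: the one body function of the Jensen step;
* `gas2 J`: `J` rows `x = 0` of each species, `J` quanta of each species on the half line;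
* `gas1 N`: `N` rows `x = 0` of one species, `N` quanta.
-/

set_option autoImplicit false

open MeasureTheory Set Filter Topology

namespace SLB

open NUMF

noncomputable section

/-- `T = tan (th/2)` -/
def T (t : ℝ) : ℝ := 2 / √3 * Real.sinh (8 / 3 * t)

/-- `log (1 + T²)` -/
def q (t : ℝ) : ℝ := Real.log (1 + T t ^ 2)

/-- the regular part of the pair energy -/
def rr (z : ℝ) : ℝ :=
  if z = 0 then 2 * Real.log (3 * Real.cos l / 8)
  else Real.log (w z) - 2 * Real.log |2 * Real.sinh (8 / 3 * z)|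

/-- boundary factor of one quantum -/
def b1 (t : ℝ) : ℝ := Real.cos l * Real.sinh (2 * t) ^ 2 / (Real.cosh (2 * t) - Real.cos l)

/-- one body function of the mean field value -/
def Ph (t : ℝ) : ℝ := Real.log (b1 t) - 1 / 2 * Real.log (w (2 * t)) - Real.log (Real.cos l)

/-- one body function of the Jensen step -/
def psi (t : ℝ) : ℝ := Real.log (b1 t) - 1 / 2 * Real.log (w (2 * t)) + q t -
  Real.log (Real.sinh (8 / 3 * t)) + Real.log (9 * √3 / 256)

/-- own pairs with images -/
def own {n : ℕ} (t : Fin n → ℝ) : ℝ := ∏ i, ∏ j ∈ Finset.Ioi i, (w (t i - t j) * w (t i + t j))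

/-- cross pairs with images -/
def crs {n m : ℕ} (t : Fin n → ℝ) (t' : Fin m → ℝ) : ℝ :=
  ∏ i, ∏ j, (g (t i - t' j) * g (t i + t' j))

/-- one body factors, two species: `J` own and `J` other rows at `0` -/
def ob2 (J : ℕ) (t : ℝ) : ℝ := b1 t * Real.exp (2 * J * v t) / Real.pi

/-- one body factors, one species: `N` own rows at `0` -/
def ob1 (N : ℕ) (t : ℝ) : ℝ := b1 t * (2 / (Real.cosh (2 * t) - r)) ^ (2 * N) / Real.pi

/-- the half line box -/
def box (n : ℕ) : Set (Fin n → ℝ) := Set.univ.pi fun _ => Ioi (0 : ℝ)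

/-- the two species gas -/
def gas2 (J : ℕ) : ENNReal := ENNReal.ofReal (1 / ((J.factorial : ℝ) ^ 2)) *
  ∫⁻ t in box J, ∫⁻ t' in box J,
    ENNReal.ofReal (own t * own t' * crs t t' * ((∏ i, ob2 J (t i)) * ∏ j, ob2 J (t' j)))

/-- the one species gas -/
def gas1 (N : ℕ) : ENNReal := ENNReal.ofReal (1 / (N.factorial : ℝ)) *
  ∫⁻ t in box N, ENNReal.ofReal (own t * ∏ i, ob1 N (t i))

/-- the half line mean of `Ph` -/
def mPh : ℝ := ∫ t in Ioi (0 : ℝ), P t * Ph t

end

end SLB
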