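import Pool.Agent.SLB.Psi

/-!
# Assembly of the lower bounds of `gas2` and `gas1`

* `e1_eq`: the one body factor of the pointwise inequality in terms of the symplectic weight;
* `gas2_of`, `gas1_of`: the lower bounds from the pointwise inequalities.
-/

set_option autoImplicit false

open Finset MeasureTheory Real Filter Topology
open Set (Ioi Ioo Ici)

namespace Pool.Agent.SLB

open NUMF

noncomputable section

/-- one body factor of the pointwise inequality -/
def E1 (t : ℝ) : ℝ := (1 + Real.cos (th t)) ^ 2 * (2 * Real.sinh (16 / 3 * t)) *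
  (√(w (2 * t)))⁻¹ * (16 / 3 * √(1 - r))

theorem w2_pos {t : ℝ} (ht : 0 < t) : 0 < w (2 * t) := by
  unfold w
  have h1 : 0 < Real.sinh (2 * t) := Real.sinh_pos_iff.2 (by positivity)
  have h3 := cr_pos t
  have h4 := Real.cosh_pos (2 * (2 * t))
  rw [show 2 * (2 * t) = 4 * t by ring] at *
  positivity

theorem b1_pos {t : ℝ} (ht : 0 < t) : 0 < SLB.b1 t := by
  unfold SLB.b1
  have h1 : 0 < Real.sinh (2 * t) := Real.sinh_pos_iff.2 (by positivity)
  have h2 := cd_pos t
  have hc := cosl_pos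
  positivity

theorem exp_psi {t : ℝ} (ht : 0 < t) : Real.exp (SLB.psi t) =
    SLB.b1 t * (√(w (2 * t)))⁻¹ * (1 + SLB.T t ^ 2) / Real.sinh (8 / 3 * t) * (9 * √3 / 256) := by
  have hb := b1_pos ht
  have hw := w2_pos ht
  have hs : 0 < Real.sinh (8 / 3 * t) := Real.sinh_pos_iff.2 (by positivity)
  have h3 := sqrt3_pos
  have hT : 0 < 1 + SLB.T t ^ 2 := by positivity
  have e : Real.exp (1 / 2 * Real.log (w (2 * t))) = √(w (2 * t)) := by
    rw [Real.sqrt_eq_rpow, Real.rpow_def_of_pos hw]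
    congr 1; ring
  unfold SLB.psi SLB.q
  rw [Real.exp_add, Real.exp_sub, Real.exp_add, Real.exp_sub, Real.exp_log hb, Real.exp_log hs,
    Real.exp_log hT, e, Real.exp_log (by positivity)]
  ring

theorem sqrt_one_sub_r : √(1 - r) = √2 * Real.sin l := by
  have h1 : 1 - r = (√2 * Real.sin l) ^ 2 := by
    have h2 : Real.cos (2 * l) = r := cos_2l
    have h3 := Real.cos_sq' l
    have h4 := Real.cos_two_mul l
    rw [mul_pow, Real.sq_sqrt (by norm_num)]
    have h5 := Real.sin_sq_add_cos_sq l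
    nlinarith
  have h0 : 0 ≤ √2 * Real.sin l := by
    have : 0 ≤ Real.sin l := Real.sin_nonneg_of_nonneg_of_le_pi (by unfold l; positivity)
      (by unfold l; linarith [Real.pi_pos])
    positivity
  rw [h1, Real.sqrt_sq h0]

/-- `√(1 - r) = 1 / (2 cos l)` -/
theorem sqrt_one_sub_r' : √(1 - r) = 1 / (2 * Real.cos l) := by
  have hc := cosl_pos
  rw [sqrt_one_sub_r, eq_div_iff (by positivity)]
  have h1 : Real.sin (2 * l) = √2 / 2 := by
    unfold l
    rw [show 2 * (Real.pi / 8) = Real.pi / 4 by ring, Real.sin_pi_div_four]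
  have h2 := Real.sin_two_mul l
  have h3 : √2 * √2 = 2 := Real.mul_self_sqrt (by norm_num)
  calc √2 * Real.sin l * (2 * Real.cos l) = √2 * (2 * Real.sin l * Real.cos l) := by ring
    _ = √2 * (√2 / 2) := by rw [← h2, h1]
    _ = 1 := by linarith

theorem e1_eq {t : ℝ} (ht : 0 < t) : E1 t * (SLB.b1 t / π) =
    32 / (3 * Real.cos l) * ((2 / π * dth t * Real.sin (th t) ^ 2) * Real.exp (SLB.psi t)) := by
  have hc := cosl_pos
  have hs : 0 < Real.sinh (8 / 3 * t) := Real.sinh_pos_iff.2 (by positivity)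
  have h3 := sqrt3_pos
  have h33 := sqrt3_sq
  have hw := Real.sqrt_pos.2 (w2_pos ht)
  have hd := den_pos t
  have hpi := Real.pi_pos
  have eS : Real.sinh (16 / 3 * t) = 2 * Real.sinh (8 / 3 * t) * Real.cosh (8 / 3 * t) := by
    rw [show 16 / 3 * t = 2 * (8 / 3 * t) by ring, Real.sinh_two_mul]
  have eC : Real.cosh (16 / 3 * t) - 1 = 2 * Real.sinh (8 / 3 * t) ^ 2 := by
    have := Real.cosh_two_mul (8 / 3 * t)
    rw [Real.cosh_sq'] at this
    rw [show 16 / 3 * t = 2 * (8 / 3 * t) by ring, this]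
    ring
  have eT : 1 + SLB.T t ^ 2 = (1 + 2 * Real.cosh (16 / 3 * t)) / 3 := by
    unfold SLB.T; exact one_add_sq_arg t
  have eCc : 1 + Real.cos (th t) = 6 / (1 + 2 * Real.cosh (16 / 3 * t)) := by
    rw [cos_th]; field_simp; ring
  rw [exp_psi ht, sin_sq_th, eC, eT]
  unfold E1 dth
  rw [eCc, eS, sqrt_one_sub_r']
  generalize 1 + 2 * Real.cosh (16 / 3 * t) = D at *
  field_simp
  ring_nf

/-- the unnormalised symplectic weight -/
def pp {n : ℕ} (t : Fin n → ℝ) : ℝ :=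
  ∏ i : Fin n, ∏ j ∈ Ioi i, (2 * Real.cos (th (t i)) - 2 * Real.cos (th (t j))) ^ 2

theorem pp_nonneg {n : ℕ} (t : Fin n → ℝ) : 0 ≤ pp t :=
  Finset.prod_nonneg fun _ _ => Finset.prod_nonneg fun _ _ => sq_nonneg _

/-- `∏ E1 b1 / π` in terms of the symplectic weight -/
theorem pp_e1 {n : ℕ} {t : Fin n → ℝ} (ht : ∀ i, 0 < t i) :
    pp t * ∏ i, (E1 (t i) * (SLB.b1 (t i) / π)) =
      (32 / (3 * Real.cos l)) ^ n * (spW n t * ∏ i, Real.exp (SLB.psi (t i))) := by
  have e : ∏ i, (E1 (t i) * (SLB.b1 (t i) / π)) = (32 / (3 * Real.cos l)) ^ n *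
      ((∏ i, (2 / π * dth (t i) * Real.sin (th (t i)) ^ 2)) * ∏ i, Real.exp (SLB.psi (t i))) := by
    rw [← Finset.prod_mul_distrib, ← Fin.prod_const n (32 / (3 * Real.cos l)), ← Finset.prod_mul_distrib]
    exact Finset.prod_congr rfl fun i _ => e1_eq (ht i)
  rw [e]
  unfold pp spW
  ring

theorem log_const : Real.log (32 / (3 * Real.cos l)) + Real.log (Real.cos l) + Real.log (9 / 32) =
    Real.log 3 := by
  have hc := cosl_pos
  rw [← Real.log_mul (by positivity) hc.ne', ← Real.log_mul (by positivity) (by norm_num)]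
  congr 1
  field_simp
  norm_num

theorem pow_const (n : ℕ) : (32 / (3 * Real.cos l)) ^ n =
    Real.exp (n * Real.log (32 / (3 * Real.cos l))) := by
  have hc := cosl_pos
  rw [Real.exp_nat_mul, Real.exp_log (by positivity)]

/-- pointwise inequality, two species -/
def Pt2 : Prop := ∀ (J : ℕ) (t t' : Fin J → ℝ), (∀ i, 0 < t i) → (∀ i, 0 < t' i) →
  Real.exp (2 * (J : ℝ) ^ 2 * (∫ s, P s * v s) - 2 * J * Real.log 3) *
    (pp t * ∏ i, E1 (t i)) * (pp t' * ∏ i, E1 (t' i)) ≤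
    SLB.own t * SLB.own t' * SLB.crs t t' *
      ((∏ i, Real.exp (2 * J * v (t i))) * ∏ i, Real.exp (2 * J * v (t' i)))

/-- pointwise inequality, one species -/
def Pt1 : Prop := ∀ (N : ℕ) (t : Fin N → ℝ), (∀ i, 0 < t i) →
  Real.exp ((N : ℝ) ^ 2 * (Real.log 2 - H 0 (3 * l)) - N * Real.log 3) * (pp t * ∏ i, E1 (t i)) ≤
    SLB.own t * ∏ i, (2 / (Real.cosh (2 * t i) - r)) ^ (2 * N)

theorem gas2_of (h : Pt2) : ∃ C : ℝ, 0 ≤ C ∧ ∀ J : ℕ,
    ENNReal.ofReal (Real.exp (2 * (J : ℝ) ^ 2 * (∫ s, P s * v s) + 4 * J * SLB.mPh -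
      C * Real.log (J + 1))) ≤ SLB.gas2 J := by
  obtain ⟨C, hC0, hC⟩ := spPsi
  refine ⟨2 * C, by positivity, fun J => ?_⟩
  have hc := cosl_pos
  have hpi := Real.pi_pos
  set A : (Fin J → ℝ) → ℝ := fun t => spW J t * ∏ i, Real.exp (SLB.psi (t i)) with hA
  set K : ℝ := Real.exp (2 * (J : ℝ) ^ 2 * (∫ s, P s * v s) - 2 * J * Real.log 3) *
    ((32 / (3 * Real.cos l)) ^ J * (32 / (3 * Real.cos l)) ^ J) with hK
  set L : ℝ := (J.factorial : ℝ) * Real.exp ((J : ℝ) * (2 * SLB.mPh + Real.log (Real.cos l) +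
      Real.log (9 / 32)) - C * Real.log (J + 1)) with hL
  have hL0 : 0 ≤ L := by positivity
  have hK0 : 0 ≤ K := by positivity
  have hCJ : ENNReal.ofReal L ≤ ∫⁻ t in SLB.box J, ENNReal.ofReal (A t) := hC J
  have hA0 : ∀ t, 0 ≤ A t := by
    intro t
    have : 0 ≤ spW J t := by
      rw [← dsq_ph]
      exact sq_nonneg _
    exact mul_nonneg this (Finset.prod_nonneg fun _ _ => (Real.exp_pos _).le)
  have hpt : ∀ t ∈ SLB.box J, ∀ t' ∈ SLB.box J, K * A t * A t' ≤
      SLB.own t * SLB.own t' * SLB.crs t t' *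
        ((∏ i, SLB.ob2 J (t i)) * ∏ j, SLB.ob2 J (t' j)) := by
    intro t ht t' ht'
    have h0 : ∀ i, 0 < t i := fun i => ht i (Set.mem_univ i)
    have h0' : ∀ i, 0 < t' i := fun i => ht' i (Set.mem_univ i)
    have h1 := h J t t' h0 h0'
    have hb : 0 ≤ (∏ i, (SLB.b1 (t i) / π)) * ∏ i, (SLB.b1 (t' i) / π) :=
      mul_nonneg (Finset.prod_nonneg fun i _ => (div_pos (b1_pos (h0 i)) hpi).le)
        (Finset.prod_nonneg fun i _ => (div_pos (b1_pos (h0' i)) hpi).le)
    have h2 := mul_le_mul_of_nonneg_right h1 hb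
    have e1 := pp_e1 h0
    have e2 := pp_e1 h0'
    rw [Finset.prod_mul_distrib] at e1 e2
    have eo : ∀ s : Fin J → ℝ, ∏ i, SLB.ob2 J (s i) =
        (∏ i, Real.exp (2 * J * v (s i))) * ∏ i, (SLB.b1 (s i) / π) := by
      intro s
      rw [← Finset.prod_mul_distrib]
      refine Finset.prod_congr rfl fun i _ => ?_
      unfold SLB.ob2
      ring
    rw [eo, eo]
    calc K * A t * A t' = Real.exp (2 * (J : ℝ) ^ 2 * (∫ s, P s * v s) - 2 * J * Real.log 3) *
          (((32 / (3 * Real.cos l)) ^ J * A t) * ((32 / (3 * Real.cos l)) ^ J * A t')) := by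
          rw [hK]; ring
      _ = Real.exp (2 * (J : ℝ) ^ 2 * (∫ s, P s * v s) - 2 * J * Real.log 3) *
          ((pp t * ((∏ i, E1 (t i)) * ∏ i, (SLB.b1 (t i) / π))) *
            (pp t' * ((∏ i, E1 (t' i)) * ∏ i, (SLB.b1 (t' i) / π)))) := by
          rw [e1, e2]
      _ = _ := by ring
      _ ≤ _ := h2
      _ = _ := by ring
  have h3 : ∫⁻ t in SLB.box J, ∫⁻ t' in SLB.box J, ENNReal.ofReal (K * A t * A t') ≤
      ∫⁻ t in SLB.box J, ∫⁻ t' in SLB.box J, ENNReal.ofReal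
        (SLB.own t * SLB.own t' * SLB.crs t t' *
        ((∏ i, SLB.ob2 J (t i)) * ∏ j, SLB.ob2 J (t' j))) := by
    have hbm : MeasurableSet (SLB.box J) := MeasurableSet.univ_pi fun _ => measurableSet_Ioi
    refine setLIntegral_mono' hbm fun t ht => setLIntegral_mono' hbm fun t' ht' => ?_
    exact ENNReal.ofReal_le_ofReal (hpt t ht t' ht')
  have h4 : ENNReal.ofReal K * ENNReal.ofReal L * ENNReal.ofReal L ≤
      ∫⁻ t in SLB.box J, ∫⁻ t' in SLB.box J, ENNReal.ofReal (K * A t * A t') := by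
    calc ENNReal.ofReal K * ENNReal.ofReal L * ENNReal.ofReal L
        ≤ ENNReal.ofReal K * ENNReal.ofReal L * ∫⁻ t in SLB.box J, ENNReal.ofReal (A t) := by gcongr
      _ = ∫⁻ t in SLB.box J, ENNReal.ofReal K * ENNReal.ofReal L * ENNReal.ofReal (A t) := by
          rw [lintegral_const_mul' _ _ (ENNReal.mul_ne_top ENNReal.ofReal_ne_top ENNReal.ofReal_ne_top)]
      _ ≤ ∫⁻ t in SLB.box J, ENNReal.ofReal (K * A t) * ∫⁻ t' in SLB.box J, ENNReal.ofReal (A t') := by
          refine lintegral_mono fun t => ?_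
          rw [ENNReal.ofReal_mul hK0]
          calc ENNReal.ofReal K * ENNReal.ofReal L * ENNReal.ofReal (A t)
              = ENNReal.ofReal K * ENNReal.ofReal (A t) * ENNReal.ofReal L := by ring
            _ ≤ _ := by gcongr
      _ = _ := by
          refine lintegral_congr fun t => ?_
          rw [← lintegral_const_mul' _ _ ENNReal.ofReal_ne_top]
          refine lintegral_congr fun t' => ?_
          rw [← ENNReal.ofReal_mul (mul_nonneg hK0 (hA0 t))]
  unfold SLB.gas2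
  refine le_trans ?_ (mul_le_mul_right (h4.trans h3) _)
  rw [← ENNReal.ofReal_mul hK0, ← ENNReal.ofReal_mul (by positivity),
    ← ENNReal.ofReal_mul (by positivity)]
  apply ENNReal.ofReal_le_ofReal
  apply le_of_eq
  have hf : (J.factorial : ℝ) ≠ 0 := by positivity
  rw [hK, hL, pow_const]
  have e5 : 1 / (J.factorial : ℝ) ^ 2 * (Real.exp (2 * (J : ℝ) ^ 2 * (∫ s, P s * v s) - 2 * J * Real.log 3) *
      (Real.exp (J * Real.log (32 / (3 * Real.cos l))) * Real.exp (J * Real.log (32 / (3 * Real.cos l)))) *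
      ((J.factorial : ℝ) * Real.exp ((J : ℝ) * (2 * SLB.mPh + Real.log (Real.cos l) +
      Real.log (9 / 32)) - C * Real.log (J + 1))) *
      ((J.factorial : ℝ) * Real.exp ((J : ℝ) * (2 * SLB.mPh + Real.log (Real.cos l) +
      Real.log (9 / 32)) - C * Real.log (J + 1)))) =
      Real.exp (2 * (J : ℝ) ^ 2 * (∫ s, P s * v s) - 2 * J * Real.log 3) *
      (Real.exp (J * Real.log (32 / (3 * Real.cos l))) * Real.exp (J * Real.log (32 / (3 * Real.cos l)))) *
      (Real.exp ((J : ℝ) * (2 * SLB.mPh + Real.log (Real.cos l) +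
      Real.log (9 / 32)) - C * Real.log (J + 1)) * Real.exp ((J : ℝ) * (2 * SLB.mPh + Real.log (Real.cos l) +
      Real.log (9 / 32)) - C * Real.log (J + 1))) := by
    field_simp
  rw [e5, ← Real.exp_add, ← Real.exp_add, ← Real.exp_add, ← Real.exp_add]
  congr 1
  have := log_const
  linear_combination (-2 * (J : ℝ)) * this

theorem gas1_of (h : Pt1) : ∃ C : ℝ, 0 ≤ C ∧ ∀ N : ℕ,
    ENNReal.ofReal (Real.exp ((N : ℝ) ^ 2 * (Real.log 2 - H 0 (3 * l)) + 2 * N * SLB.mPh -
      C * Real.log (N + 1))) ≤ SLB.gas1 N := by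
  obtain ⟨C, hC0, hC⟩ := spPsi
  refine ⟨C, hC0, fun N => ?_⟩
  have hc := cosl_pos
  have hpi := Real.pi_pos
  set A : (Fin N → ℝ) → ℝ := fun t => spW N t * ∏ i, Real.exp (SLB.psi (t i)) with hA
  set K : ℝ := Real.exp ((N : ℝ) ^ 2 * (Real.log 2 - H 0 (3 * l)) - N * Real.log 3) *
    (32 / (3 * Real.cos l)) ^ N with hK
  set L : ℝ := (N.factorial : ℝ) * Real.exp ((N : ℝ) * (2 * SLB.mPh + Real.log (Real.cos l) +
      Real.log (9 / 32)) - C * Real.log (N + 1)) with hL
  have hL0 : 0 ≤ L := by positivity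
  have hK0 : 0 ≤ K := by positivity
  have hCN : ENNReal.ofReal L ≤ ∫⁻ t in SLB.box N, ENNReal.ofReal (A t) := hC N
  have hpt : ∀ t ∈ SLB.box N, K * A t ≤ SLB.own t * ∏ i, SLB.ob1 N (t i) := by
    intro t ht
    have h0 : ∀ i, 0 < t i := fun i => ht i (Set.mem_univ i)
    have h1 := h N t h0
    have hb : 0 ≤ ∏ i, (SLB.b1 (t i) / π) :=
      Finset.prod_nonneg fun i _ => (div_pos (b1_pos (h0 i)) hpi).le
    have h2 := mul_le_mul_of_nonneg_right h1 hb
    have e1 := pp_e1 h0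
    rw [Finset.prod_mul_distrib] at e1
    have eo : ∏ i, SLB.ob1 N (t i) =
        (∏ i, (2 / (Real.cosh (2 * t i) - r)) ^ (2 * N)) * ∏ i, (SLB.b1 (t i) / π) := by
      rw [← Finset.prod_mul_distrib]
      refine Finset.prod_congr rfl fun i _ => ?_
      unfold SLB.ob1
      ring
    rw [eo]
    calc K * A t = Real.exp ((N : ℝ) ^ 2 * (Real.log 2 - H 0 (3 * l)) - N * Real.log 3) *
          ((32 / (3 * Real.cos l)) ^ N * A t) := by rw [hK]; ring
      _ = Real.exp ((N : ℝ) ^ 2 * (Real.log 2 - H 0 (3 * l)) - N * Real.log 3) *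
          (pp t * ((∏ i, E1 (t i)) * ∏ i, (SLB.b1 (t i) / π))) := by rw [e1]
      _ = _ := by ring
      _ ≤ _ := h2
      _ = _ := by ring
  have h4 : ENNReal.ofReal K * ENNReal.ofReal L ≤
      ∫⁻ t in SLB.box N, ENNReal.ofReal (SLB.own t * ∏ i, SLB.ob1 N (t i)) := by
    have hbm : MeasurableSet (SLB.box N) := MeasurableSet.univ_pi fun _ => measurableSet_Ioi
    calc ENNReal.ofReal K * ENNReal.ofReal L
        ≤ ENNReal.ofReal K * ∫⁻ t in SLB.box N, ENNReal.ofReal (A t) := by gcongr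
      _ = ∫⁻ t in SLB.box N, ENNReal.ofReal K * ENNReal.ofReal (A t) := by
          rw [lintegral_const_mul' _ _ ENNReal.ofReal_ne_top]
      _ ≤ _ := by
          refine setLIntegral_mono' hbm fun t ht => ?_
          rw [← ENNReal.ofReal_mul hK0]
          exact ENNReal.ofReal_le_ofReal (hpt t ht)
  unfold SLB.gas1
  refine le_trans ?_ (mul_le_mul_right h4 _)
  rw [← ENNReal.ofReal_mul hK0, ← ENNReal.ofReal_mul (by positivity)]
  apply ENNReal.ofReal_le_ofReal
  apply le_of_eq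
  rw [hK, hL, pow_const]
  have e5 : 1 / (N.factorial : ℝ) * (Real.exp ((N : ℝ) ^ 2 * (Real.log 2 - H 0 (3 * l)) - N * Real.log 3) *
      Real.exp (N * Real.log (32 / (3 * Real.cos l))) *
      ((N.factorial : ℝ) * Real.exp ((N : ℝ) * (2 * SLB.mPh + Real.log (Real.cos l) +
      Real.log (9 / 32)) - C * Real.log (N + 1)))) =
      Real.exp ((N : ℝ) ^ 2 * (Real.log 2 - H 0 (3 * l)) - N * Real.log 3) *
      Real.exp (N * Real.log (32 / (3 * Real.cos l))) *
      Real.exp ((N : ℝ) * (2 * SLB.mPh + Real.log (Real.cos l) +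
      Real.log (9 / 32)) - C * Real.log (N + 1)) := by
    field_simp
  rw [e5, ← Real.exp_add, ← Real.exp_add]
  congr 1
  have := log_const
  linear_combination (-(N : ℝ)) * this

end

end Pool.Agent.SLB
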