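import Pool.Agent.FSz.Heine

/-!
# One point function of a determinantal ensemble and Jensen's inequality

`one_point`: for real functions `φ 0, …, φ (n-1)` orthonormal for a measure `μ`,
`∫ (∑ f (x i)) det (φ i (x j))² = n! ∑ ∫ f φ k ²`.
`jensen_det`: `n! exp (∑ ∫ f φ k ²) ≤ ∫⁻ det (φ i (x j))² ∏ exp (f (x i))`.
-/

set_option autoImplicit false

open Matrix Finset MeasureTheory

namespace Pool.Agent.SLB

open Pool.Agent.Szego62 (det_mul_det_eq)

variable {α : Type*} {n : ℕ}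

/-- squared determinant -/
noncomputable def dsq (φ : Fin n → α → ℝ) (x : Fin n → α) : ℝ :=
  (Matrix.of fun i j => φ i (x j)).det ^ 2

theorem dsq_nonneg (φ : Fin n → α → ℝ) (x : Fin n → α) : 0 ≤ dsq φ x := sq_nonneg _

theorem dsq_eq (φ : Fin n → α → ℝ) (x : Fin n → α) :
    dsq φ x = ∑ σ : Equiv.Perm (Fin n), ∑ τ : Equiv.Perm (Fin n),
      ((Equiv.Perm.sign σ : ℤ) : ℝ) * ((Equiv.Perm.sign τ : ℤ) : ℝ) *
        ∏ j, (φ (σ j) (x j) * φ (τ j) (x j)) := by
  unfold dsq
  rw [pow_two, det_mul_det_eq]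
  rfl

variable [MeasurableSpace α] {μ : Measure α} [SigmaFinite μ]

theorem integrable_dsq (φ : Fin n → α → ℝ) (h : ∀ i j, Integrable (fun x => φ i x * φ j x) μ) :
    Integrable (dsq φ) (Measure.pi fun _ => μ) := by
  have : dsq φ = fun x => ∑ σ : Equiv.Perm (Fin n), ∑ τ : Equiv.Perm (Fin n),
      ((Equiv.Perm.sign σ : ℤ) : ℝ) * ((Equiv.Perm.sign τ : ℤ) : ℝ) *
        ∏ j, (φ (σ j) (x j) * φ (τ j) (x j)) := funext fun x => dsq_eq φ x
  rw [this]
  refine integrable_finsetSum _ fun σ _ => integrable_finsetSum _ fun τ _ => ?_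
  apply Integrable.const_mul
  exact Integrable.fintype_prod (f := fun j y => φ (σ j) y * φ (τ j) y) (fun j => h (σ j) (τ j))

theorem sign_mul_self (σ : Equiv.Perm (Fin n)) :
    ((Equiv.Perm.sign σ : ℤ) : ℝ) * ((Equiv.Perm.sign σ : ℤ) : ℝ) = 1 := by
  rcases Int.units_eq_one_or (Equiv.Perm.sign σ) with h | h <;> simp [h]

/-- one factor `f` at the place `i` -/
theorem prod_ite_factor (σ τ : Equiv.Perm (Fin n)) (φ : Fin n → α → ℝ) (f : α → ℝ) (i : Fin n)
    (x : Fin n → α) : f (x i) * ∏ j, (φ (σ j) (x j) * φ (τ j) (x j)) =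
      ∏ j, ((if j = i then f (x j) else 1) * (φ (σ j) (x j) * φ (τ j) (x j))) := by
  have h1 : ∏ j, ((if j = i then f (x j) else 1) * (φ (σ j) (x j) * φ (τ j) (x j))) =
      (∏ j, (if j = i then f (x j) else 1)) * ∏ j, (φ (σ j) (x j) * φ (τ j) (x j)) :=
    prod_mul_distrib
  rw [h1, prod_ite_eq' univ i (fun j => f (x j))]
  simp

theorem integral_one (φ : Fin n → α → ℝ) (f : α → ℝ)
    (ho : ∀ i j, ∫ x, φ i x * φ j x ∂μ = if i = j then 1 else 0)
    (σ τ : Equiv.Perm (Fin n)) (i : Fin n) :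
    ∫ x : Fin n → α, f (x i) * ∏ j, (φ (σ j) (x j) * φ (τ j) (x j)) ∂(Measure.pi fun _ => μ) =
      if σ = τ then ∫ x, f x * (φ (σ i) x * φ (σ i) x) ∂μ else 0 := by
  simp_rw [prod_ite_factor]
  rw [integral_fintype_prod_eq_prod
    (f := fun j y => (if j = i then f y else 1) * (φ (σ j) y * φ (τ j) y))]
  split_ifs with hst
  · subst hst
    rw [← mul_prod_erase univ _ (mem_univ i)]
    simp only [if_true]
    rw [prod_eq_one, mul_one]
    intro j hj
    have hji : j ≠ i := (mem_erase.1 hj).1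
    simp only [hji, if_false, one_mul]
    rw [ho, if_pos rfl]
  · -- some `j ≠ i` with `σ j ≠ τ j`
    have hex : ∃ j, j ≠ i ∧ σ j ≠ τ j := by
      by_contra hcon
      push Not at hcon
      apply hst
      have hall : ∀ j, j ≠ i → σ j = τ j := hcon
      ext j
      by_cases hji : j = i
      · subst hji
        -- both permutations send `j` to the remaining value
        obtain ⟨k, hk⟩ := σ.surjective (τ j)
        by_cases hkj : k = j
        · rw [hkj] at hk; rw [hk]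
        · have h1 := hall k hkj
          rw [hk] at h1
          exact absurd (τ.injective h1.symm) (by simpa using hkj)
      · rw [hall j hji]
    obtain ⟨j, hji, hne⟩ := hex
    refine prod_eq_zero (mem_univ j) ?_
    simp only [hji, if_false, one_mul]
    rw [ho, if_neg hne]

theorem integrable_one (φ : Fin n → α → ℝ) (f : α → ℝ)
    (h : ∀ i j, Integrable (fun x => φ i x * φ j x) μ)
    (hf : ∀ i j, Integrable (fun x => f x * (φ i x * φ j x)) μ)
    (σ τ : Equiv.Perm (Fin n)) (i : Fin n) :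
    Integrable (fun x : Fin n → α => f (x i) * ∏ j, (φ (σ j) (x j) * φ (τ j) (x j)))
      (Measure.pi fun _ => μ) := by
  simp_rw [prod_ite_factor]
  refine Integrable.fintype_prod
    (f := fun j y => (if j = i then f y else 1) * (φ (σ j) y * φ (τ j) y)) fun j => ?_
  by_cases hji : j = i
  · simp only [hji, if_true]
    exact hf _ _
  · simp only [hji, if_false, one_mul]
    exact h _ _

theorem integrable_f_dsq (φ : Fin n → α → ℝ) (f : α → ℝ)
    (h : ∀ i j, Integrable (fun x => φ i x * φ j x) μ)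
    (hf : ∀ i j, Integrable (fun x => f x * (φ i x * φ j x)) μ) :
    Integrable (fun x : Fin n → α => (∑ i, f (x i)) * dsq φ x) (Measure.pi fun _ => μ) := by
  have : (fun x : Fin n → α => (∑ i, f (x i)) * dsq φ x) = fun x =>
      ∑ i, ∑ σ : Equiv.Perm (Fin n), ∑ τ : Equiv.Perm (Fin n),
      ((Equiv.Perm.sign σ : ℤ) : ℝ) * ((Equiv.Perm.sign τ : ℤ) : ℝ) *
        (f (x i) * ∏ j, (φ (σ j) (x j) * φ (τ j) (x j))) := by
    funext x
    rw [dsq_eq, sum_mul]
    refine sum_congr rfl fun i _ => ?_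
    rw [mul_sum]
    refine sum_congr rfl fun σ _ => ?_
    rw [mul_sum]
    refine sum_congr rfl fun τ _ => ?_
    ring
  rw [this]
  refine integrable_finsetSum _ fun i _ => integrable_finsetSum _ fun σ _ =>
    integrable_finsetSum _ fun τ _ => ?_
  exact (integrable_one φ f h hf σ τ i).const_mul _

/-- **one point function** -/
theorem one_point (φ : Fin n → α → ℝ) (f : α → ℝ)
    (ho : ∀ i j, ∫ x, φ i x * φ j x ∂μ = if i = j then 1 else 0)
    (h : ∀ i j, Integrable (fun x => φ i x * φ j x) μ)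
    (hf : ∀ i j, Integrable (fun x => f x * (φ i x * φ j x)) μ) :
    ∫ x : Fin n → α, (∑ i, f (x i)) * dsq φ x ∂(Measure.pi fun _ => μ) =
      (n.factorial : ℝ) * ∑ k, ∫ x, f x * (φ k x * φ k x) ∂μ := by
  have e : (fun x : Fin n → α => (∑ i, f (x i)) * dsq φ x) = fun x =>
      ∑ i, ∑ σ : Equiv.Perm (Fin n), ∑ τ : Equiv.Perm (Fin n),
      ((Equiv.Perm.sign σ : ℤ) : ℝ) * ((Equiv.Perm.sign τ : ℤ) : ℝ) *
        (f (x i) * ∏ j, (φ (σ j) (x j) * φ (τ j) (x j))) := by
    funext x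
    rw [dsq_eq, sum_mul]
    refine sum_congr rfl fun i _ => ?_
    rw [mul_sum]
    refine sum_congr rfl fun σ _ => ?_
    rw [mul_sum]
    refine sum_congr rfl fun τ _ => ?_
    ring
  rw [e]
  rw [integral_finsetSum _ fun i _ => integrable_finsetSum _ fun σ _ =>
    integrable_finsetSum _ fun τ _ => (integrable_one φ f h hf σ τ i).const_mul _]
  have h1 : ∀ i : Fin n, ∫ x : Fin n → α, ∑ σ : Equiv.Perm (Fin n), ∑ τ : Equiv.Perm (Fin n),
      ((Equiv.Perm.sign σ : ℤ) : ℝ) * ((Equiv.Perm.sign τ : ℤ) : ℝ) *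
        (f (x i) * ∏ j, (φ (σ j) (x j) * φ (τ j) (x j))) ∂(Measure.pi fun _ => μ) =
      ∑ σ : Equiv.Perm (Fin n), ∫ x, f x * (φ (σ i) x * φ (σ i) x) ∂μ := by
    intro i
    rw [integral_finsetSum _ fun σ _ =>
      integrable_finsetSum _ fun τ _ => (integrable_one φ f h hf σ τ i).const_mul _]
    refine sum_congr rfl fun σ _ => ?_
    rw [integral_finsetSum _ fun τ _ => (integrable_one φ f h hf σ τ i).const_mul _]
    rw [Finset.sum_eq_single σ]
    · rw [integral_const_mul, integral_one φ f ho, if_pos rfl, sign_mul_self, one_mul]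
    · intro τ _ hne
      rw [integral_const_mul, integral_one φ f ho, if_neg (Ne.symm hne), mul_zero]
    · intro hn
      exact absurd (mem_univ σ) hn
  simp_rw [h1]
  rw [sum_comm]
  have h2 : ∀ σ : Equiv.Perm (Fin n), ∑ i, ∫ x, f x * (φ (σ i) x * φ (σ i) x) ∂μ =
      ∑ k, ∫ x, f x * (φ k x * φ k x) ∂μ := fun σ =>
    Equiv.sum_comp σ (fun k => ∫ x, f x * (φ k x * φ k x) ∂μ)
  simp_rw [h2]
  simp [Fintype.card_perm]

theorem integral_zero (φ : Fin n → α → ℝ)
    (ho : ∀ i j, ∫ x, φ i x * φ j x ∂μ = if i = j then 1 else 0)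
    (σ τ : Equiv.Perm (Fin n)) :
    ∫ x : Fin n → α, ∏ j, (φ (σ j) (x j) * φ (τ j) (x j)) ∂(Measure.pi fun _ => μ) =
      if σ = τ then 1 else 0 := by
  rw [integral_fintype_prod_eq_prod (f := fun j y => φ (σ j) y * φ (τ j) y)]
  split_ifs with hst
  · subst hst
    exact prod_eq_one fun j _ => by rw [ho, if_pos rfl]
  · obtain ⟨j, hj⟩ : ∃ j, σ j ≠ τ j := by
      by_contra hcon
      push Not at hcon
      exact hst (Equiv.ext hcon)
    exact prod_eq_zero (mem_univ j) (by rw [ho, if_neg hj])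

/-- total mass -/
theorem mass (φ : Fin n → α → ℝ)
    (ho : ∀ i j, ∫ x, φ i x * φ j x ∂μ = if i = j then 1 else 0)
    (h : ∀ i j, Integrable (fun x => φ i x * φ j x) μ) :
    ∫ x : Fin n → α, dsq φ x ∂(Measure.pi fun _ => μ) = n.factorial := by
  have hint : ∀ σ τ : Equiv.Perm (Fin n), Integrable
      (fun x : Fin n → α => ((Equiv.Perm.sign σ : ℤ) : ℝ) * ((Equiv.Perm.sign τ : ℤ) : ℝ) *
        ∏ j, (φ (σ j) (x j) * φ (τ j) (x j))) (Measure.pi fun _ => μ) := by
    intro σ τ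
    apply Integrable.const_mul
    exact Integrable.fintype_prod (f := fun j y => φ (σ j) y * φ (τ j) y)
      (fun j => h (σ j) (τ j))
  simp_rw [dsq_eq]
  rw [integral_finsetSum _ fun σ _ => integrable_finsetSum _ fun τ _ => hint σ τ]
  have h1 : ∀ σ : Equiv.Perm (Fin n), ∫ x : Fin n → α, ∑ τ : Equiv.Perm (Fin n),
      ((Equiv.Perm.sign σ : ℤ) : ℝ) * ((Equiv.Perm.sign τ : ℤ) : ℝ) *
        ∏ j, (φ (σ j) (x j) * φ (τ j) (x j)) ∂(Measure.pi fun _ => μ) = 1 := by
    intro σ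
    rw [integral_finsetSum _ fun τ _ => hint σ τ, Finset.sum_eq_single σ]
    · rw [integral_const_mul, integral_zero φ ho, if_pos rfl, sign_mul_self, one_mul]
    · intro τ _ hne
      rw [integral_const_mul, integral_zero φ ho, if_neg (Ne.symm hne), mul_zero]
    · intro hn
      exact absurd (mem_univ σ) hn
  simp_rw [h1]
  simp [Fintype.card_perm]

omit [SigmaFinite μ] in
theorem ofReal_integral_le {Ω : Type*} [MeasurableSpace Ω] {ν : Measure Ω} {f : Ω → ℝ}
    (hf : Integrable f ν) : ENNReal.ofReal (∫ x, f x ∂ν) ≤ ∫⁻ x, ENNReal.ofReal (f x) ∂ν := by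
  rw [integral_eq_lintegral_pos_part_sub_lintegral_neg_part hf]
  have h1 : ∫⁻ x, ENNReal.ofReal (f x) ∂ν ≠ ⊤ := by
    have := hf.lintegral_lt_top
    exact this.ne
  calc ENNReal.ofReal ((∫⁻ x, ENNReal.ofReal (f x) ∂ν).toReal -
        (∫⁻ x, ENNReal.ofReal (-f x) ∂ν).toReal) ≤
        ENNReal.ofReal ((∫⁻ x, ENNReal.ofReal (f x) ∂ν).toReal) :=
        ENNReal.ofReal_le_ofReal (by linarith [ENNReal.toReal_nonneg (a := ∫⁻ x, ENNReal.ofReal (-f x) ∂ν)])
    _ = _ := ENNReal.ofReal_toReal h1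

/-- **Jensen's inequality** for a determinantal ensemble -/
theorem jensen_det (φ : Fin n → α → ℝ) (f : α → ℝ)
    (ho : ∀ i j, ∫ x, φ i x * φ j x ∂μ = if i = j then 1 else 0)
    (h : ∀ i j, Integrable (fun x => φ i x * φ j x) μ)
    (hf : ∀ i j, Integrable (fun x => f x * (φ i x * φ j x)) μ) :
    ENNReal.ofReal ((n.factorial : ℝ) * Real.exp (∑ k, ∫ x, f x * (φ k x * φ k x) ∂μ)) ≤
      ∫⁻ x : Fin n → α, ENNReal.ofReal (dsq φ x * ∏ i, Real.exp (f (x i)))
        ∂(Measure.pi fun _ => μ) := by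
  set m := ∑ k, ∫ x, f x * (φ k x * φ k x) ∂μ with hm
  have hi1 := integrable_dsq (μ := μ) φ h
  have hi2 := integrable_f_dsq (μ := μ) φ f h hf
  have hi : Integrable (fun x : Fin n → α => Real.exp m * ((1 - m) * dsq φ x +
      (∑ i, f (x i)) * dsq φ x)) (Measure.pi fun _ => μ) :=
    ((hi1.const_mul _).add hi2).const_mul _
  have hval : ∫ x : Fin n → α, Real.exp m * ((1 - m) * dsq φ x +
      (∑ i, f (x i)) * dsq φ x) ∂(Measure.pi fun _ => μ) = (n.factorial : ℝ) * Real.exp m := by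
    rw [integral_const_mul, integral_add (hi1.const_mul _) hi2, integral_const_mul,
      mass φ ho h, one_point φ f ho h hf, ← hm]
    ring
  rw [← hval]
  refine (ofReal_integral_le hi).trans (lintegral_mono fun x => ENNReal.ofReal_le_ofReal ?_)
  have h1 : Real.exp m * (1 + ((∑ i, f (x i)) - m)) ≤ ∏ i, Real.exp (f (x i)) := by
    rw [← Real.exp_sum]
    calc Real.exp m * (1 + ((∑ i, f (x i)) - m)) ≤
        Real.exp m * Real.exp ((∑ i, f (x i)) - m) := by
          gcongr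
          linarith [Real.add_one_le_exp ((∑ i, f (x i)) - m)]
      _ = _ := by
          rw [← Real.exp_add]
          congr 1
          ring
  calc Real.exp m * ((1 - m) * dsq φ x + (∑ i, f (x i)) * dsq φ x) =
      dsq φ x * (Real.exp m * (1 + ((∑ i, f (x i)) - m))) := by ring
    _ ≤ _ := mul_le_mul_of_nonneg_left h1 (dsq_nonneg φ x)

end Pool.Agent.SLB
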