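import Pool.Agent.SLB.B2
import Pool.Agent.SLB.Defs

/-!
# The one body function `psi` of the Jensen step

`fp_bound` : `psi = Lq + ff`, `|ff'| ≤ C exp (-2t)`;
`spPsi` : `N! exp (N (2 mPh + log cos l + log (9/32)) - C log (N+1)) ≤ ∫⁻ spW N t ∏ exp (psi (t i))`.
-/

set_option autoImplicit false

open Matrix Finset MeasureTheory Real Filter Topology
open Set (Ioi Ioo Ici)

namespace Pool.Agent.SLB

open NUMF

noncomputable section

theorem cosl_pos : 0 < Real.cos l := by
  apply Real.cos_pos_of_mem_Ioo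
  unfold l
  constructor <;> linarith [Real.pi_pos]

theorem cosl_lt : Real.cos l < 1 := by
  rw [← Real.cos_zero]
  apply Real.cos_lt_cos_of_nonneg_of_le_pi_div_two le_rfl
  · unfold l; linarith [Real.pi_pos]
  · unfold l; linarith [Real.pi_pos]

theorem cd_pos (t : ℝ) : 0 < Real.cosh (2 * t) - Real.cos l := by
  have := Real.one_le_cosh (2 * t)
  have := cosl_lt
  linarith

theorem cr_pos (t : ℝ) : 0 < Real.cosh (4 * t) - r := by
  have := Real.one_le_cosh (4 * t)
  have := r_lt_one
  linarith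

/-- explicit form of `psi - Lq` -/
def ff (t : ℝ) : ℝ := Real.log (Real.cos l) + Real.log (Real.sinh (2 * t)) -
  Real.log (Real.cosh (2 * t) - Real.cos l) - 1 / 2 * Real.log (Real.cosh (4 * t)) +
  1 / 2 * Real.log (Real.cosh (4 * t) - r) + Lq t - Real.log (Real.sinh (8 / 3 * t)) +
  Real.log (9 * √3 / 256)

theorem psi_eq {t : ℝ} (ht : 0 < t) : SLB.psi t = Lq t + ff t := by
  have h1 : 0 < Real.sinh (2 * t) := Real.sinh_pos_iff.2 (by positivity)
  have h2 := cd_pos t
  have h3 := cr_pos t
  have h4 := Real.cosh_pos (4 * t)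
  have hc := cosl_pos
  have e1 : Real.log (SLB.b1 t) = Real.log (Real.cos l) + 2 * Real.log (Real.sinh (2 * t)) -
      Real.log (Real.cosh (2 * t) - Real.cos l) := by
    unfold SLB.b1
    rw [Real.log_div (by positivity) h2.ne', Real.log_mul hc.ne' (by positivity), Real.log_pow]
    push_cast
    ring
  have e2 : Real.log (w (2 * t)) = 2 * Real.log (Real.sinh (2 * t)) + Real.log (Real.cosh (4 * t)) -
      Real.log (Real.cosh (4 * t) - r) := by
    unfold w
    rw [show 2 * (2 * t) = 4 * t by ring, Real.log_div (by positivity) h3.ne',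
      Real.log_mul (by positivity) h4.ne', Real.log_pow]
    push_cast
    ring
  have e3 : SLB.q t = 2 * Lq t := by
    unfold SLB.q Lq SLB.T tn
    ring
  unfold SLB.psi ff
  rw [e1, e2, e3]
  ring

/-- derivative of `ff` -/
def ff' (t : ℝ) : ℝ := (2 * Real.cosh (2 * t) / Real.sinh (2 * t) -
    2 * Real.sinh (2 * t) / (Real.cosh (2 * t) - Real.cos l)) +
  (tn t * dth t / 2 - 8 / 3 * Real.cosh (8 / 3 * t) / Real.sinh (8 / 3 * t)) +
  (2 * Real.sinh (4 * t) / (Real.cosh (4 * t) - r) - 2 * Real.sinh (4 * t) / Real.cosh (4 * t))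

theorem hasDerivAt_ff {t : ℝ} (ht : 0 < t) : HasDerivAt ff (ff' t) t := by
  have h1 : 0 < Real.sinh (2 * t) := Real.sinh_pos_iff.2 (by positivity)
  have h2 := cd_pos t
  have h3 := cr_pos t
  have h4 := Real.cosh_pos (4 * t)
  have h5 : 0 < Real.sinh (8 / 3 * t) := Real.sinh_pos_iff.2 (by positivity)
  have m2 : HasDerivAt (fun t : ℝ => 2 * t) 2 t := by simpa using (hasDerivAt_id t).const_mul 2
  have m4 : HasDerivAt (fun t : ℝ => 4 * t) 4 t := by simpa using (hasDerivAt_id t).const_mul 4
  have m8 : HasDerivAt (fun t : ℝ => 8 / 3 * t) (8 / 3) t := by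
    simpa using (hasDerivAt_id t).const_mul (8 / 3)
  have d1 := (m2.sinh).log h1.ne'
  have d2 := ((m2.cosh).sub_const (Real.cos l)).log h2.ne'
  have d3 := ((m4.cosh).log h4.ne').const_mul (1 / 2)
  have d4 := (((m4.cosh).sub_const r).log h3.ne').const_mul (1 / 2)
  have d5 := hasDerivAt_Lq t
  have d6 := (m8.sinh).log h5.ne'
  have D := ((((((d1.const_add (Real.log (Real.cos l))).sub d2).sub d3).add d4).add d5).sub
    d6).add_const (Real.log (9 * √3 / 256))
  refine D.congr_deriv ?_
  unfold ff'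
  field_simp
  ring

theorem sinh_le_mul_cosh {x : ℝ} (hx : 0 ≤ x) : Real.sinh x ≤ x * Real.cosh x := by
  have hd : ∀ y : ℝ, HasDerivAt (fun y => y * Real.cosh y - Real.sinh y) (y * Real.sinh y) y := by
    intro y
    refine (((hasDerivAt_id y).mul (Real.hasDerivAt_cosh y)).sub (Real.hasDerivAt_sinh y)).congr_deriv ?_
    simp
  have hm : MonotoneOn (fun y => y * Real.cosh y - Real.sinh y) (Ici 0) := by
    refine monotoneOn_of_hasDerivWithinAt_nonneg (convex_Ici 0) ?_
      (f' := fun y => y * Real.sinh y) ?_ ?_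
    · exact fun y _ => (hd y).continuousAt.continuousWithinAt
    · exact fun y _ => (hd y).hasDerivWithinAt
    · intro y hy
      rw [interior_Ici] at hy
      have hy0 : 0 < y := hy
      have := Real.sinh_nonneg_iff.2 hy0.le
      positivity
  have h := hm (Set.mem_Ici.2 (le_refl (0 : ℝ))) (Set.mem_Ici.2 hx) hx
  simp only [zero_mul, Real.sinh_zero, sub_zero] at h
  linarith

theorem coth_bound {a t : ℝ} (ha : 0 < a) (ht : 0 < t) :
    1 / t ≤ a * Real.cosh (a * t) / Real.sinh (a * t) ∧
    a * Real.cosh (a * t) / Real.sinh (a * t) ≤ 1 / t + a := by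
  have hx : 0 < a * t := by positivity
  have hs : 0 < Real.sinh (a * t) := Real.sinh_pos_iff.2 hx
  have hc := Real.cosh_pos (a * t)
  constructor
  · -- `sinh x ≤ x cosh x`
    have h1 := sinh_le_mul_cosh hx.le
    rw [div_le_div_iff₀ ht hs]
    linarith
  · -- `x cosh x ≤ (1 + x) sinh x`
    have h2 : (a * t) * Real.exp (-(a * t)) ≤ Real.sinh (a * t) := by
      have h3 : Real.exp (-(a * t)) ≤ 1 := Real.exp_le_one_iff.2 (by linarith)
      have h4 := Real.self_le_sinh_iff.2 hx.le
      nlinarith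
    have h5 : Real.cosh (a * t) - Real.sinh (a * t) = Real.exp (-(a * t)) := Real.cosh_sub_sinh _
    rw [div_le_iff₀ hs]
    have h6 : (1 / t + a) * Real.sinh (a * t) = (1 + a * t) * Real.sinh (a * t) / t := by
      field_simp
    rw [h6, le_div_iff₀ ht]
    nlinarith

theorem ff'_small {t : ℝ} (ht : 0 < t) (ht1 : t ≤ 1) : |ff' t| ≤ 8 / 3 +
    2 * Real.sinh 2 / (1 - Real.cos l) + 32 / 3 + 2 / (1 - r) + 2 := by
  have hcl : 0 < 1 - Real.cos l := by linarith [cosl_lt]
  have hr1 : 0 < 1 - r := by linarith [r_lt_one]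
  have h1 := coth_bound (a := 2) two_pos ht
  have h2 := coth_bound (a := 8 / 3) (by norm_num) ht
  have h3 : 0 ≤ 2 * Real.sinh (2 * t) / (Real.cosh (2 * t) - Real.cos l) := by
    have : 0 ≤ Real.sinh (2 * t) := Real.sinh_nonneg_iff.2 (by positivity)
    have := cd_pos t
    positivity
  have h4 : 2 * Real.sinh (2 * t) / (Real.cosh (2 * t) - Real.cos l) ≤
      2 * Real.sinh 2 / (1 - Real.cos l) := by
    apply div_le_div₀
    · have : 0 ≤ Real.sinh 2 := Real.sinh_nonneg_iff.2 (by norm_num)
      positivity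
    · have := Real.sinh_le_sinh.2 (show 2 * t ≤ 2 by linarith)
      linarith
    · exact hcl
    · have := Real.one_le_cosh (2 * t)
      linarith
  have e5 : tn t * dth t / 2 = 32 / 3 * (Real.sinh (8 / 3 * t) * Real.cosh (8 / 3 * t)) /
      (1 + 2 * Real.cosh (16 / 3 * t)) := by
    unfold tn dth
    have h := den_pos t
    have h' := sqrt3_pos
    field_simp
    rw [sqrt3_sq]
  have h5 : 0 ≤ tn t * dth t / 2 := by
    have := tn_nonneg ht.le
    have := dth_pos t
    positivity
  have h6 : tn t * dth t / 2 ≤ 32 / 3 := by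
    rw [e5, div_le_iff₀ (den_pos t)]
    have h7 : Real.cosh (16 / 3 * t) = 2 * Real.sinh (8 / 3 * t) ^ 2 + 1 := by
      have := Real.cosh_two_mul (8 / 3 * t)
      rw [Real.cosh_sq'] at this
      rw [show 16 / 3 * t = 2 * (8 / 3 * t) by ring, this]
      ring
    have h8 := Real.cosh_sq' (8 / 3 * t)
    rw [h7]
    nlinarith [sq_nonneg (Real.sinh (8 / 3 * t) - Real.cosh (8 / 3 * t)), sq_nonneg (Real.sinh (8 / 3 * t))]
  have h9 : 0 ≤ Real.sinh (4 * t) := Real.sinh_nonneg_iff.2 (by positivity)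
  have h10 : Real.sinh (4 * t) ≤ Real.cosh (4 * t) := (Real.sinh_lt_cosh _).le
  have h11 := cr_pos t
  have h12 := Real.cosh_pos (4 * t)
  have h13 : 0 ≤ 2 * Real.sinh (4 * t) / (Real.cosh (4 * t) - r) := by positivity
  have h14 : 2 * Real.sinh (4 * t) / (Real.cosh (4 * t) - r) ≤ 2 / (1 - r) := by
    rw [div_le_div_iff₀ h11 hr1]
    have := r_pos
    have h15 := Real.one_le_cosh (4 * t)
    nlinarith
  have h15 : 0 ≤ 2 * Real.sinh (4 * t) / Real.cosh (4 * t) := by positivity
  have h16 : 2 * Real.sinh (4 * t) / Real.cosh (4 * t) ≤ 2 := by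
    rw [div_le_iff₀ h12]; linarith
  unfold ff'
  rw [abs_le]
  constructor <;> linarith [h1.1, h1.2, h2.1, h2.2]

theorem ff'_large {t : ℝ} (ht : 1 ≤ t) : |ff' t| ≤ 88 * Real.exp (-(2 * t)) := by
  have ht0 : 0 < t := by linarith
  have hs0 := Real.self_le_sinh_iff.2 ht0.le
  have c3 : 3 ≤ Real.cosh (2 * t) := by
    rw [Real.cosh_two_mul, Real.cosh_sq']
    nlinarith
  have hs2 : 0 < Real.sinh (2 * t) := Real.sinh_pos_iff.2 (by positivity)
  have hsc : Real.cosh (2 * t) ≤ 2 * Real.sinh (2 * t) := by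
    have h1 := Real.cosh_sq (2 * t)
    by_contra hcon
    push Not at hcon
    nlinarith
  have hcd : Real.cosh (2 * t) ≤ 2 * (Real.cosh (2 * t) - Real.cos l) := by
    have := cosl_lt
    linarith
  have hexp : Real.exp (2 * t) ≤ 2 * Real.cosh (2 * t) := by
    rw [Real.cosh_eq]
    have := Real.exp_pos (-(2 * t))
    linarith
  have hE := Real.exp_pos (2 * t)
  have hinv : Real.exp (-(2 * t)) = (Real.exp (2 * t))⁻¹ := Real.exp_neg _
  have hcosh : 0 < Real.cosh (2 * t) := Real.cosh_pos _
  have hcdp := cd_pos t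
  -- (a)
  have ha : |2 * Real.cosh (2 * t) / Real.sinh (2 * t) -
      2 * Real.sinh (2 * t) / (Real.cosh (2 * t) - Real.cos l)| ≤ 16 * Real.exp (-(2 * t)) := by
    have e : 2 * Real.cosh (2 * t) / Real.sinh (2 * t) -
        2 * Real.sinh (2 * t) / (Real.cosh (2 * t) - Real.cos l) =
        2 * (1 - Real.cos l * Real.cosh (2 * t)) /
          (Real.sinh (2 * t) * (Real.cosh (2 * t) - Real.cos l)) := by
      have h1 := Real.cosh_sq' (2 * t)
      field_simp
      linear_combination h1
    rw [e, abs_div, abs_of_pos (mul_pos hs2 hcdp), div_le_iff₀ (mul_pos hs2 hcdp)]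
    have h1 : |2 * (1 - Real.cos l * Real.cosh (2 * t))| ≤ 2 * Real.cosh (2 * t) := by
      have hc := cosl_pos
      have hc1 := cosl_lt
      rw [abs_le]
      constructor <;> nlinarith
    refine h1.trans ?_
    rw [hinv]
    have h2 : Real.cosh (2 * t) * Real.cosh (2 * t) ≤
        4 * (Real.sinh (2 * t) * (Real.cosh (2 * t) - Real.cos l)) := by nlinarith
    have h3 : 2 * Real.cosh (2 * t) * Real.exp (2 * t) ≤
        16 * (Real.sinh (2 * t) * (Real.cosh (2 * t) - Real.cos l)) := by nlinarith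
    calc 2 * Real.cosh (2 * t) = (2 * Real.cosh (2 * t) * Real.exp (2 * t)) * (Real.exp (2 * t))⁻¹ := by
          field_simp
      _ ≤ (16 * (Real.sinh (2 * t) * (Real.cosh (2 * t) - Real.cos l))) * (Real.exp (2 * t))⁻¹ := by
          gcongr
      _ = _ := by ring
  -- (b)
  have hb : |tn t * dth t / 2 - 8 / 3 * Real.cosh (8 / 3 * t) / Real.sinh (8 / 3 * t)| ≤
      64 * Real.exp (-(2 * t)) := by
    have hS : 0 < Real.sinh (8 / 3 * t) := Real.sinh_pos_iff.2 (by positivity)
    have hmono : Real.sinh (2 * t) ≤ Real.sinh (8 / 3 * t) := Real.sinh_le_sinh.2 (by linarith)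
    have hC := Real.cosh_pos (8 / 3 * t)
    have h7 : 1 + 2 * Real.cosh (16 / 3 * t) = 3 + 4 * Real.sinh (8 / 3 * t) ^ 2 := by
      have := Real.cosh_two_mul (8 / 3 * t)
      rw [Real.cosh_sq'] at this
      rw [show 16 / 3 * t = 2 * (8 / 3 * t) by ring, this]
      ring
    have e : tn t * dth t / 2 - 8 / 3 * Real.cosh (8 / 3 * t) / Real.sinh (8 / 3 * t) =
        -(8 * Real.cosh (8 / 3 * t) / (Real.sinh (8 / 3 * t) * (3 + 4 * Real.sinh (8 / 3 * t) ^ 2))) := by
      unfold tn dth
      rw [h7]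
      have h' := sqrt3_pos
      have h'' : 0 < 3 + 4 * Real.sinh (8 / 3 * t) ^ 2 := by positivity
      field_simp
      rw [sqrt3_sq]
      ring
    have hCS : Real.cosh (8 / 3 * t) ≤ 2 * Real.sinh (8 / 3 * t) := by
      have h1 := Real.cosh_sq (8 / 3 * t)
      by_contra hcon
      push Not at hcon
      nlinarith
    rw [e, abs_neg, abs_of_pos (by positivity), div_le_iff₀ (by positivity), hinv]
    have h8 : Real.exp (2 * t) ≤ 4 * Real.sinh (8 / 3 * t) := by linarith
    have h9 : 8 * Real.cosh (8 / 3 * t) * Real.exp (2 * t) ≤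
        64 * (Real.sinh (8 / 3 * t) * (3 + 4 * Real.sinh (8 / 3 * t) ^ 2)) := by
      have h10 : 8 * Real.cosh (8 / 3 * t) * Real.exp (2 * t) ≤
          8 * (2 * Real.sinh (8 / 3 * t)) * (4 * Real.sinh (8 / 3 * t)) := by gcongr
      nlinarith [sq_nonneg (Real.sinh (8 / 3 * t)), hS, mul_pos hS hS,
        sq_nonneg (2 * Real.sinh (8 / 3 * t) - 1)]
    calc 8 * Real.cosh (8 / 3 * t) = (8 * Real.cosh (8 / 3 * t) * Real.exp (2 * t)) *
          (Real.exp (2 * t))⁻¹ := by field_simp
      _ ≤ (64 * (Real.sinh (8 / 3 * t) * (3 + 4 * Real.sinh (8 / 3 * t) ^ 2))) *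
          (Real.exp (2 * t))⁻¹ := by gcongr
      _ = _ := by ring
  -- (c)
  have hc : |2 * Real.sinh (4 * t) / (Real.cosh (4 * t) - r) -
      2 * Real.sinh (4 * t) / Real.cosh (4 * t)| ≤ 8 * Real.exp (-(2 * t)) := by
    have h4 := Real.cosh_pos (4 * t)
    have hrp := r_pos
    have hr1 := r_lt_one
    have hcr := cr_pos t
    have hs4 : 0 ≤ Real.sinh (4 * t) := Real.sinh_nonneg_iff.2 (by positivity)
    have hsc4 : Real.sinh (4 * t) ≤ Real.cosh (4 * t) := (Real.sinh_lt_cosh _).le
    have hm4 : Real.cosh (2 * t) ≤ Real.cosh (4 * t) := by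
      rw [Real.cosh_le_cosh, abs_of_pos (by positivity), abs_of_pos (by positivity)]
      linarith
    have e : 2 * Real.sinh (4 * t) / (Real.cosh (4 * t) - r) -
        2 * Real.sinh (4 * t) / Real.cosh (4 * t) =
        2 * r * Real.sinh (4 * t) / (Real.cosh (4 * t) * (Real.cosh (4 * t) - r)) := by
      field_simp
      ring
    rw [e, abs_of_nonneg (by positivity), div_le_iff₀ (by positivity), hinv]
    have h5 : 2 * r * Real.sinh (4 * t) * Real.exp (2 * t) ≤
        8 * (Real.cosh (4 * t) * (Real.cosh (4 * t) - r)) := by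
      have h6 : 2 * r * Real.sinh (4 * t) * Real.exp (2 * t) ≤
          2 * 1 * Real.cosh (4 * t) * (2 * Real.cosh (4 * t)) := by
        gcongr
        linarith
      nlinarith
    calc 2 * r * Real.sinh (4 * t) = (2 * r * Real.sinh (4 * t) * Real.exp (2 * t)) *
          (Real.exp (2 * t))⁻¹ := by field_simp
      _ ≤ (8 * (Real.cosh (4 * t) * (Real.cosh (4 * t) - r))) * (Real.exp (2 * t))⁻¹ := by gcongr
      _ = _ := by ring
  unfold ff'
  refine (abs_add_le _ _).trans ?_
  refine (add_le_add (abs_add_le _ _) le_rfl).trans ?_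
  linarith

theorem ff'_bound : ∃ C : ℝ, 0 ≤ C ∧ ∀ t, 0 < t → |ff' t| ≤ C * Real.exp (-(2 * t)) := by
  set K := 8 / 3 + 2 * Real.sinh 2 / (1 - Real.cos l) + 32 / 3 + 2 / (1 - r) + 2 with hK
  have hcl : 0 < 1 - Real.cos l := by linarith [cosl_lt]
  have hr1 : 0 < 1 - r := by linarith [r_lt_one]
  have hs : 0 ≤ Real.sinh 2 := Real.sinh_nonneg_iff.2 (by norm_num)
  have hK0 : 0 ≤ K := by positivity
  refine ⟨K * Real.exp 2 + 88, by positivity, fun t ht => ?_⟩
  have hE := Real.exp_pos (-(2 * t))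
  rcases le_total t 1 with h | h
  · refine (ff'_small ht h).trans ?_
    have h1 : K ≤ K * Real.exp 2 * Real.exp (-(2 * t)) := by
      rw [mul_assoc, ← Real.exp_add]
      exact le_mul_of_one_le_right hK0 (Real.one_le_exp (by linarith))
    nlinarith
  · refine (ff'_large h).trans ?_
    have : 0 ≤ K * Real.exp 2 * Real.exp (-(2 * t)) := by positivity
    nlinarith

theorem ff_bound : ∃ M : ℝ, ∀ t, 0 < t → |ff t| ≤ M := by
  obtain ⟨C, hC0, hC⟩ := ff'_bound
  have hE : ∀ t : ℝ, HasDerivAt (fun t : ℝ => C / 2 * Real.exp (-(2 * t)))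
      (-(C * Real.exp (-(2 * t)))) t := by
    intro t
    have h1 : HasDerivAt (fun t : ℝ => -(2 * t)) (-2) t := by
      simpa using ((hasDerivAt_id t).const_mul 2).fun_neg
    refine ((h1.exp).const_mul (C / 2)).congr_deriv ?_
    ring
  have hA : AntitoneOn (fun t => ff t + C / 2 * Real.exp (-(2 * t))) (Ioi 0) := by
    refine antitoneOn_of_hasDerivWithinAt_nonpos (convex_Ioi 0) ?_ (f' := fun t => ff' t + -(C * Real.exp (-(2 * t)))) ?_ ?_
    · exact fun t ht => ((hasDerivAt_ff ht).add (hE t)).continuousAt.continuousWithinAt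
    · intro t ht
      rw [interior_Ioi] at ht
      exact ((hasDerivAt_ff ht).add (hE t)).hasDerivWithinAt
    · intro t ht
      rw [interior_Ioi] at ht
      have := (abs_le.1 (hC t ht)).2
      linarith
  have hB : MonotoneOn (fun t => ff t - C / 2 * Real.exp (-(2 * t))) (Ioi 0) := by
    refine monotoneOn_of_hasDerivWithinAt_nonneg (convex_Ioi 0) ?_ (f' := fun t => ff' t - -(C * Real.exp (-(2 * t)))) ?_ ?_
    · exact fun t ht => ((hasDerivAt_ff ht).sub (hE t)).continuousAt.continuousWithinAt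
    · intro t ht
      rw [interior_Ioi] at ht
      exact ((hasDerivAt_ff ht).sub (hE t)).hasDerivWithinAt
    · intro t ht
      rw [interior_Ioi] at ht
      have := (abs_le.1 (hC t ht)).1
      linarith
  refine ⟨|ff 1| + C, fun t ht => ?_⟩
  have h1 : Real.exp (-(2 * t)) ≤ 1 := Real.exp_le_one_iff.2 (by linarith)
  have h2 : Real.exp (-(2 * (1 : ℝ))) ≤ 1 := Real.exp_le_one_iff.2 (by norm_num)
  have p1 := Real.exp_pos (-(2 * t))
  have p2 := Real.exp_pos (-(2 * (1 : ℝ)))
  have b1 : C / 2 * Real.exp (-(2 * t)) ≤ C / 2 := mul_le_of_le_one_right (by positivity) h1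
  have b2 : C / 2 * Real.exp (-(2 * (1 : ℝ))) ≤ C / 2 := mul_le_of_le_one_right (by positivity) h2
  have b3 : 0 ≤ C / 2 * Real.exp (-(2 * t)) := by positivity
  have b4 : 0 ≤ C / 2 * Real.exp (-(2 * (1 : ℝ))) := by positivity
  have a1 := neg_abs_le (ff 1)
  have a2 := le_abs_self (ff 1)
  have one : (1 : ℝ) ∈ Set.Ioi (0 : ℝ) := Set.mem_Ioi.2 one_pos
  rw [abs_le]
  rcases le_total t 1 with h | h
  · have q1 := hA (show t ∈ Ioi (0 : ℝ) from ht) one h
    have q2 := hB (show t ∈ Ioi (0 : ℝ) from ht) one h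
    simp only at q1 q2
    constructor <;> linarith
  · have q1 := hA one (show t ∈ Ioi (0 : ℝ) from ht) h
    have q2 := hB one (show t ∈ Ioi (0 : ℝ) from ht) h
    simp only at q1 q2
    constructor <;> linarith

theorem measurable_ff : Measurable ff := by
  unfold ff
  have := continuous_Lq.measurable
  have h1 : Measurable fun t : ℝ => Real.log (Real.sinh (2 * t)) := by fun_prop
  have h2 : Measurable fun t : ℝ => Real.log (Real.cosh (2 * t) - Real.cos l) := by fun_prop
  have h3 : Measurable fun t : ℝ => Real.log (Real.cosh (4 * t)) := by fun_prop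
  have h4 : Measurable fun t : ℝ => Real.log (Real.cosh (4 * t) - r) := by fun_prop
  have h5 : Measurable fun t : ℝ => Real.log (Real.sinh (8 / 3 * t)) := by fun_prop
  fun_prop

theorem integrable_ff : IntegrableOn (fun t => dth t * ff t) (Ioi 0) := by
  obtain ⟨M, hM⟩ := ff_bound
  have h1 : IntegrableOn (fun t => M * dth t) (Ioi 0) := integrable_dth.const_mul M
  refine Integrable.mono' h1 ((continuous_dth.measurable.mul measurable_ff).aestronglyMeasurable) ?_
  refine (ae_restrict_iff' measurableSet_Ioi).2 (Eventually.of_forall fun t ht => ?_)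
  rw [Real.norm_eq_abs, abs_mul, abs_of_pos (dth_pos t), mul_comm]
  exact mul_le_mul_of_nonneg_right (hM t ht) (dth_pos t).le

theorem measurable_ff' : Measurable ff' := by
  unfold ff'
  have hd := continuous_dth.measurable
  have ht := continuous_tn.measurable
  have h1 : Measurable fun t : ℝ => 2 * Real.cosh (2 * t) / Real.sinh (2 * t) :=
    Measurable.div (by fun_prop) (by fun_prop)
  have h2 : Measurable fun t : ℝ => 2 * Real.sinh (2 * t) / (Real.cosh (2 * t) - Real.cos l) :=
    Measurable.div (by fun_prop) (by fun_prop)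
  have h3 : Measurable fun t : ℝ => 8 / 3 * Real.cosh (8 / 3 * t) / Real.sinh (8 / 3 * t) :=
    Measurable.div (by fun_prop) (by fun_prop)
  have h4 : Measurable fun t : ℝ => 2 * Real.sinh (4 * t) / (Real.cosh (4 * t) - r) :=
    Measurable.div (by fun_prop) (by fun_prop)
  have h5 : Measurable fun t : ℝ => 2 * Real.sinh (4 * t) / Real.cosh (4 * t) :=
    Measurable.div (by fun_prop) (by fun_prop)
  have h6 : Measurable fun t : ℝ => tn t * dth t / 2 := by fun_prop
  exact ((h1.sub h2).add (h6.sub h3)).add (h4.sub h5)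

theorem integrable_ff' : IntegrableOn ff' (Ioi 0) := by
  obtain ⟨C, hC0, hC⟩ := ff'_bound
  have h1 : IntegrableOn (fun t : ℝ => C * Real.exp (-2 * t)) (Ioi 0) :=
    (integrableOn_exp_mul_Ioi (by norm_num) 0).const_mul C
  refine Integrable.mono' h1 measurable_ff'.aestronglyMeasurable ?_
  refine (ae_restrict_iff' measurableSet_Ioi).2 (Eventually.of_forall fun t ht => ?_)
  rw [Real.norm_eq_abs]
  have := hC t ht
  rwa [show -(2 * t) = -2 * t by ring] at this

theorem integrable_psi_ph (i j : ℕ) :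
    IntegrableOn (fun t => SLB.psi t * (ph i t * ph j t)) (Ioi 0) := by
  have hth := continuous_th
  have hs : IntegrableOn (fun t => dth t * (Lq t + ff t)) (Ioi 0) := by
    have := integrable_Lq.add integrable_ff
    refine this.congr (Eventually.of_forall fun t => ?_)
    simp only [Pi.add_apply]
    ring
  have h1 := integrable_mul_bdd hs (b := fun t => 2 / π * (Real.sin (((i : ℝ) + 1) * th t) *
    Real.sin (((j : ℝ) + 1) * th t))) (by fun_prop) (M := 2 / π) (fun t => by
      have hp : (0 : ℝ) < 2 / π := by positivity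
      rw [abs_mul, abs_mul, abs_of_pos hp]
      have a1 := Real.abs_sin_le_one (((i : ℝ) + 1) * th t)
      have a2 := Real.abs_sin_le_one (((j : ℝ) + 1) * th t)
      have a3 := abs_nonneg (Real.sin (((i : ℝ) + 1) * th t))
      have a4 := abs_nonneg (Real.sin (((j : ℝ) + 1) * th t))
      have a5 : |Real.sin (((i : ℝ) + 1) * th t)| * |Real.sin (((j : ℝ) + 1) * th t)| ≤ 1 := by
        nlinarith
      nlinarith)
  refine IntegrableOn.congr_fun h1 (fun t ht => ?_) measurableSet_Ioi
  rw [psi_eq ht, ph_mul]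
  ring

theorem integral_log_cos_half : ∫ x in (0 : ℝ)..π, Real.log (Real.cos (x / 2)) = -(π * Real.log 2) := by
  have h1 : ∫ x in (0 : ℝ)..π, Real.log (Real.cos (x / 2)) =
      2 * ∫ x in (0 : ℝ)..(π / 2), Real.log (Real.cos x) := by
    rw [intervalIntegral.integral_comp_div (fun x => Real.log (Real.cos x)) (by norm_num : (2 : ℝ) ≠ 0)]
    simp
  have h2 : ∫ x in (0 : ℝ)..(π / 2), Real.log (Real.cos x) =
      ∫ x in (0 : ℝ)..(π / 2), Real.log (Real.sin x) := by
    have := intervalIntegral.integral_comp_sub_left (a := 0) (b := π / 2)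
      (fun x => Real.log (Real.sin x)) (π / 2)
    simp only [sub_self, sub_zero] at this
    rw [← this]
    refine intervalIntegral.integral_congr fun x _ => ?_
    rw [Real.sin_pi_div_two_sub]
  rw [h1, h2, integral_log_sin_zero_pi_div_two]
  ring

theorem integral_log_sin_half : ∫ x in (0 : ℝ)..π, Real.log (Real.sin (x / 2)) = -(π * Real.log 2) := by
  have h1 : ∫ x in (0 : ℝ)..π, Real.log (Real.sin (x / 2)) =
      2 * ∫ x in (0 : ℝ)..(π / 2), Real.log (Real.sin x) := by
    rw [intervalIntegral.integral_comp_div (fun x => Real.log (Real.sin x)) (by norm_num : (2 : ℝ) ≠ 0)]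
    simp
  rw [h1, integral_log_sin_zero_pi_div_two]
  ring

theorem cos_half_th (t : ℝ) : Real.cos (th t / 2) = (√(1 + tn t ^ 2))⁻¹ := by
  unfold th
  rw [show 2 * Real.arctan (2 / √3 * Real.sinh (8 / 3 * t)) / 2 = Real.arctan (tn t) by
    unfold tn; ring, Real.cos_arctan]
  simp [one_div]

theorem log_cos_half (t : ℝ) : Real.log (Real.cos (th t / 2)) = -Lq t := by
  rw [cos_half_th, Real.log_inv, Real.log_sqrt (by positivity)]
  unfold Lq
  ring

theorem log_sin_half {t : ℝ} (ht : 0 < t) : Real.log (Real.sin (th t / 2)) =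
    Real.log (2 / √3) + Real.log (Real.sinh (8 / 3 * t)) - Lq t := by
  have h5 : 0 < Real.sinh (8 / 3 * t) := Real.sinh_pos_iff.2 (by positivity)
  have h3 := sqrt3_pos
  have h1 : Real.sin (th t / 2) = tn t * Real.cos (th t / 2) := by
    have e : th t / 2 = Real.arctan (tn t) := by unfold th tn; ring
    rw [e]
    have hc := Real.cos_arctan_pos (tn t)
    have := Real.tan_arctan (tn t)
    rw [Real.tan_eq_sin_div_cos] at this
    field_simp at this
    linarith
  have hc : 0 < Real.cos (th t / 2) := by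
    rw [cos_half_th]; positivity
  rw [h1, Real.log_mul (tn_pos ht).ne' hc.ne', log_cos_half]
  unfold tn
  rw [Real.log_mul (by positivity) h5.ne']
  ring

theorem integral_dth : ∫ t in Ioi 0, dth t = π := by
  have := integral_dth_cos 0
  simpa using this

theorem integral_Lq : ∫ t in Ioi 0, dth t * Lq t = π * Real.log 2 := by
  have h1 := integral_th (fun x => -Real.log (Real.cos (x / 2)))
  simp only [log_cos_half, neg_neg] at h1
  rw [h1, ← integral_Ioc_eq_integral_Ioo, ← intervalIntegral.integral_of_le Real.pi_pos.le,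
    intervalIntegral.integral_neg, integral_log_cos_half]
  ring

theorem integrable_log_sinh : IntegrableOn (fun t => dth t * Real.log (Real.sinh (8 / 3 * t))) (Ioi 0) := by
  have h1 : IntervalIntegrable (Real.log ∘ Real.sin) volume 0 (π / 2) :=
    intervalIntegrable_log_sin
  have h2 : IntervalIntegrable (fun x => Real.log (Real.sin (x / 2))) volume 0 π := by
    have h3 := h1.comp_mul_left (c := 1 / 2)
    simp only [Function.comp_apply, one_div, div_inv_eq_mul] at h3
    have e1 : π / 2 * 2 = π := by ring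
    rw [e1, zero_mul] at h3
    have e2 : (fun x : ℝ => Real.log (Real.sin (2⁻¹ * x))) =
        fun x : ℝ => Real.log (Real.sin (x / 2)) := by
      funext x
      rw [show (2 : ℝ)⁻¹ * x = x / 2 by ring]
    rwa [e2] at h3
  have h3 := (intervalIntegrable_iff_integrableOn_Ioo_of_le Real.pi_pos.le).1 h2
  have h4 := (integrable_th (fun x => Real.log (Real.sin (x / 2)))).2 h3
  have h5 : IntegrableOn (fun t => dth t * Real.log (Real.sin (th t / 2)) +
      (dth t * Lq t - Real.log (2 / √3) * dth t)) (Ioi 0) :=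
    h4.add (integrable_Lq.sub (integrable_dth.const_mul _))
  refine IntegrableOn.congr_fun h5 (fun t ht => ?_) measurableSet_Ioi
  rw [log_sin_half ht]
  ring

theorem integral_log_sinh : ∫ t in Ioi 0, dth t * Real.log (Real.sinh (8 / 3 * t)) =
    -(π * Real.log (2 / √3)) := by
  have h1 := integral_th (fun x => Real.log (Real.sin (x / 2)))
  rw [← integral_Ioc_eq_integral_Ioo, ← intervalIntegral.integral_of_le Real.pi_pos.le,
    integral_log_sin_half] at h1
  have h2 : ∫ t in Ioi 0, dth t * Real.log (Real.sin (th t / 2)) =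
      ∫ t in Ioi 0, ((Real.log (2 / √3) * dth t + dth t * Real.log (Real.sinh (8 / 3 * t))) -
        dth t * Lq t) := by
    refine setIntegral_congr_fun measurableSet_Ioi fun t ht => ?_
    rw [log_sin_half ht]
    ring
  rw [h2] at h1
  have hA : IntegrableOn (fun t => Real.log (2 / √3) * dth t +
      dth t * Real.log (Real.sinh (8 / 3 * t))) (Ioi 0) :=
    (integrable_dth.const_mul _).add integrable_log_sinh
  rw [integral_sub hA integrable_Lq, integral_add (integrable_dth.const_mul _) integrable_log_sinh,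
    integral_const_mul, integral_dth, integral_Lq] at h1
  linarith

theorem dth_eq (t : ℝ) : dth t = 2 * π * P t := by
  unfold dth P ch
  have h7 : 1 + 2 * Real.cosh (16 / 3 * t) = 4 * Real.cosh (8 / 3 * t) ^ 2 - 1 := by
    have := Real.cosh_two_mul (8 / 3 * t)
    rw [Real.sinh_sq] at this
    rw [show 16 / 3 * t = 2 * (8 / 3 * t) by ring, this]
    ring
  have h3 := sqrt3_pos
  have hpi := Real.pi_pos
  have h4 : 0 < 4 * Real.cosh (8 / 3 * t) ^ 2 - 1 := by rw [← h7]; exact den_pos t
  rw [h7]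
  field_simp
  ring

/-- the mean of `psi` in the sea -/
theorem mean_psi : 1 / π * ∫ t in Ioi 0, dth t * (Lq t + ff t) =
    2 * SLB.mPh + Real.log (Real.cos l) + Real.log (9 / 32) := by
  have hpi := Real.pi_pos
  have h3 := sqrt3_pos
  have hPh : ∀ t, 0 < t → SLB.Ph t = (Lq t + ff t) - Real.log (Real.cos l) - 2 * Lq t +
      Real.log (Real.sinh (8 / 3 * t)) - Real.log (9 * √3 / 256) := by
    intro t ht
    rw [← psi_eq ht]
    unfold SLB.psi SLB.Ph SLB.q Lq SLB.T tn
    ring
  have hs : IntegrableOn (fun t => dth t * (Lq t + ff t)) (Ioi 0) := by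
    have := integrable_Lq.add integrable_ff
    refine this.congr (Eventually.of_forall fun t => ?_)
    simp only [Pi.add_apply]
    ring
  have h1 : SLB.mPh = 1 / (2 * π) * ∫ t in Ioi 0, ((dth t * (Lq t + ff t) - 2 * (dth t * Lq t)) +
      (dth t * Real.log (Real.sinh (8 / 3 * t)) -
        (Real.log (Real.cos l) + Real.log (9 * √3 / 256)) * dth t)) := by
    unfold SLB.mPh
    rw [← integral_const_mul]
    refine setIntegral_congr_fun measurableSet_Ioi fun t ht => ?_
    rw [hPh t ht, dth_eq]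
    field_simp
    ring
  have hA : IntegrableOn (fun t => dth t * (Lq t + ff t) - 2 * (dth t * Lq t)) (Ioi 0) :=
    hs.sub (integrable_Lq.const_mul 2)
  have hB : IntegrableOn (fun t => dth t * Real.log (Real.sinh (8 / 3 * t)) -
        (Real.log (Real.cos l) + Real.log (9 * √3 / 256)) * dth t) (Ioi 0) :=
    integrable_log_sinh.sub (integrable_dth.const_mul _)
  rw [integral_add hA hB, integral_sub hs (integrable_Lq.const_mul 2),
    integral_sub integrable_log_sinh (integrable_dth.const_mul _), integral_const_mul,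
    integral_const_mul, integral_dth, integral_Lq, integral_log_sinh] at h1
  rw [h1]
  have e1 : Real.log (2 / √3) = Real.log 2 - Real.log √3 := Real.log_div (by norm_num) h3.ne'
  have e2 : Real.log (9 * √3 / 256) = Real.log 9 + Real.log √3 - 8 * Real.log 2 := by
    rw [Real.log_div (by positivity) (by norm_num), Real.log_mul (by norm_num) h3.ne']
    have : Real.log 256 = 8 * Real.log 2 := by
      rw [show (256 : ℝ) = 2 ^ 8 by norm_num, Real.log_pow]; norm_num
    rw [this]
  have e3 : Real.log (9 / 32) = Real.log 9 - 5 * Real.log 2 := by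
    rw [Real.log_div (by norm_num) (by norm_num)]
    have : Real.log 32 = 5 * Real.log 2 := by
      rw [show (32 : ℝ) = 2 ^ 5 by norm_num, Real.log_pow]; norm_num
    rw [this]
  rw [e1, e2, e3]
  field_simp
  ring

/-- **part (B)** of the lower bound -/
theorem spPsi : ∃ C : ℝ, 0 ≤ C ∧ ∀ N : ℕ,
    ENNReal.ofReal ((N.factorial : ℝ) * Real.exp ((N : ℝ) * (2 * SLB.mPh + Real.log (Real.cos l) +
      Real.log (9 / 32)) - C * Real.log (N + 1))) ≤
    ∫⁻ t in SLB.box N, ENNReal.ofReal (spW N t * ∏ i, Real.exp (SLB.psi (t i))) := by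
  obtain ⟨M, hM⟩ := ff_bound
  obtain ⟨C, hC0, hC⟩ := one_body_ge M (fun t ht => hasDerivAt_ff ht) hM integrable_ff' integrable_ff
  refine ⟨C, hC0, fun N => ?_⟩
  have h1 := jensen_th N SLB.psi integrable_psi_ph
  have e1 : ∑ k : Fin N, ∫ t in Ioi 0, SLB.psi t * (ph k t * ph k t) =
      ∑ k : Fin N, ∫ t in Ioi 0, (Lq t + ff t) * (ph k t * ph k t) := by
    refine Finset.sum_congr rfl fun k _ => setIntegral_congr_fun measurableSet_Ioi fun t ht => ?_
    rw [psi_eq ht]
  rw [e1] at h1
  have e2 : (volume : Measure (Fin N → ℝ)).restrict (SLB.box N) =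
      Measure.pi fun _ : Fin N => (volume : Measure ℝ).restrict (Set.Ioi 0) := by
    unfold SLB.box
    rw [volume_pi, Measure.restrict_pi_pi]
  rw [e2]
  refine le_trans (ENNReal.ofReal_le_ofReal ?_) h1
  have h2 := hC N
  rw [mean_psi] at h2
  gcongr

end

end Pool.Agent.SLB
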