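import Pool.Agent.SLB.OnePt

/-!
# The uniformising map of the sea

`th t = 2 arctan ((2/√3) sinh (8 t / 3))` maps `(0, ∞)` onto `(0, π)`.
`jensen_th`: Jensen's inequality for the symplectic ensemble in the variable `t`.
-/

set_option autoImplicit false

open Matrix Finset MeasureTheory Real
open Set (Ioi Ioo)

namespace Pool.Agent.SLB

noncomputable section

def th (t : ℝ) : ℝ := 2 * Real.arctan (2 / √3 * Real.sinh (8 / 3 * t))

def dth (t : ℝ) : ℝ := 32 / √3 * Real.cosh (8 / 3 * t) / (1 + 2 * Real.cosh (16 / 3 * t))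

theorem den_pos (t : ℝ) : 0 < 1 + 2 * Real.cosh (16 / 3 * t) := by
  have := Real.cosh_pos (16 / 3 * t)
  linarith

theorem sqrt3_sq : √(3 : ℝ) ^ 2 = 3 := Real.sq_sqrt (by norm_num)

theorem sqrt3_pos : (0 : ℝ) < √3 := Real.sqrt_pos.2 (by norm_num)

theorem sq_arg (t : ℝ) : (2 / √3 * Real.sinh (8 / 3 * t)) ^ 2 =
    (2 * Real.cosh (16 / 3 * t) - 2) / 3 := by
  have h1 : Real.cosh (16 / 3 * t) = 2 * Real.sinh (8 / 3 * t) ^ 2 + 1 := by
    have := Real.cosh_two_mul (8 / 3 * t)
    rw [Real.cosh_sq'] at this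
    rw [show 16 / 3 * t = 2 * (8 / 3 * t) by ring, this]
    ring
  rw [mul_pow, div_pow, sqrt3_sq, h1]
  ring

theorem one_add_sq_arg (t : ℝ) : 1 + (2 / √3 * Real.sinh (8 / 3 * t)) ^ 2 =
    (1 + 2 * Real.cosh (16 / 3 * t)) / 3 := by
  rw [sq_arg]; ring

theorem hasDerivAt_th (t : ℝ) : HasDerivAt th (dth t) t := by
  have h1 : HasDerivAt (fun t : ℝ => 8 / 3 * t) (8 / 3) t := by
    simpa using (hasDerivAt_id t).const_mul (8 / 3)
  have h2 := ((h1.sinh).const_mul (2 / √3)).arctan.const_mul 2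
  refine h2.congr_deriv ?_
  have h3 := den_pos t
  have h4 := sqrt3_pos
  rw [one_add_sq_arg]
  unfold dth
  field_simp
  ring

theorem dth_pos (t : ℝ) : 0 < dth t := by
  unfold dth
  have h1 := den_pos t
  have h2 := sqrt3_pos
  have h3 := Real.cosh_pos (8 / 3 * t)
  positivity

theorem continuous_dth : Continuous dth := by
  unfold dth
  refine Continuous.div (by fun_prop) (by fun_prop) fun t => (den_pos t).ne'

theorem continuous_th : Continuous th :=
  continuous_iff_continuousAt.2 fun t => (hasDerivAt_th t).continuousAt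

theorem th_strictMono : StrictMono th :=
  strictMono_of_hasDerivAt_pos hasDerivAt_th fun t => dth_pos t

theorem th_zero : th 0 = 0 := by simp [th]

theorem th_lt (t : ℝ) : th t < π := by
  unfold th
  have := Real.arctan_lt_pi_div_two (2 / √3 * Real.sinh (8 / 3 * t))
  linarith

theorem th_pos {t : ℝ} (ht : 0 < t) : 0 < th t := by
  rw [← th_zero]; exact th_strictMono ht

theorem th_image : th '' (Ioi 0) = Ioo 0 π := by
  ext y
  constructor
  · rintro ⟨t, ht, rfl⟩
    exact ⟨th_pos ht, th_lt t⟩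
  · rintro ⟨h0, h1⟩
    have h3 := sqrt3_pos
    refine ⟨3 / 8 * Real.arsinh (√3 / 2 * Real.tan (y / 2)), ?_, ?_⟩
    · have h2 : 0 < Real.tan (y / 2) := Real.tan_pos_of_pos_of_lt_pi_div_two (by linarith) (by linarith)
      have : 0 < Real.arsinh (√3 / 2 * Real.tan (y / 2)) := Real.arsinh_pos_iff.2 (by positivity)
      simp only [Set.mem_Ioi]
      positivity
    · unfold th
      rw [show 8 / 3 * (3 / 8 * Real.arsinh (√3 / 2 * Real.tan (y / 2))) =
        Real.arsinh (√3 / 2 * Real.tan (y / 2)) by ring, Real.sinh_arsinh]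
      rw [show 2 / √3 * (√3 / 2 * Real.tan (y / 2)) = Real.tan (y / 2) by field_simp,
        Real.arctan_tan (by linarith) (by linarith)]
      ring

theorem cos_th (t : ℝ) : Real.cos (th t) =
    (5 - 2 * Real.cosh (16 / 3 * t)) / (1 + 2 * Real.cosh (16 / 3 * t)) := by
  unfold th
  rw [Real.cos_two_mul, Real.cos_sq_arctan, one_add_sq_arg]
  have h3 := den_pos t
  field_simp
  ring

theorem sin_sq_th (t : ℝ) : Real.sin (th t) ^ 2 =
    24 * (Real.cosh (16 / 3 * t) - 1) / (1 + 2 * Real.cosh (16 / 3 * t)) ^ 2 := by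
  rw [Real.sin_sq, cos_th]
  have h3 := den_pos t
  field_simp
  ring

theorem cos_sub_cos (t s : ℝ) : 2 * Real.cos (th t) - 2 * Real.cos (th s) =
    24 * (Real.cosh (16 / 3 * s) - Real.cosh (16 / 3 * t)) /
      ((1 + 2 * Real.cosh (16 / 3 * t)) * (1 + 2 * Real.cosh (16 / 3 * s))) := by
  rw [cos_th, cos_th]
  have h3 := den_pos t
  have h4 := den_pos s
  field_simp
  ring

/-- change of variables -/
theorem integral_th (g : ℝ → ℝ) :
    ∫ t in Ioi 0, dth t * g (th t) = ∫ x in Ioo 0 π, g x := by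
  rw [← th_image, integral_image_eq_integral_abs_deriv_smul measurableSet_Ioi
    (fun x _ => (hasDerivAt_th x).hasDerivWithinAt) th_strictMono.injective.injOn g]
  refine setIntegral_congr_fun measurableSet_Ioi fun t _ => ?_
  simp only [smul_eq_mul]
  rw [abs_of_pos (dth_pos t)]

theorem integrable_th (g : ℝ → ℝ) :
    IntegrableOn (fun t => dth t * g (th t)) (Ioi 0) ↔ IntegrableOn g (Ioo 0 π) := by
  rw [← th_image, integrableOn_image_iff_integrableOn_abs_deriv_smul measurableSet_Ioi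
    (fun x _ => (hasDerivAt_th x).hasDerivWithinAt) th_strictMono.injective.injOn g]
  refine integrableOn_congr_fun (fun t _ => ?_) measurableSet_Ioi
  simp only [smul_eq_mul]
  rw [abs_of_pos (dth_pos t)]

theorem integral_cos_nat (k : ℕ) : ∫ x in (0 : ℝ)..π, Real.cos ((k : ℝ) * x) =
    if k = 0 then π else 0 := by
  split_ifs with h
  · subst h; simp
  · have hk : (k : ℝ) ≠ 0 := by exact_mod_cast h
    rw [intervalIntegral.integral_comp_mul_left (fun x => Real.cos x) hk, integral_cos]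
    simp

theorem integral_sin_sin (i j : ℕ) : ∫ x in (0 : ℝ)..π, Real.sin (((i : ℝ) + 1) * x) *
    Real.sin (((j : ℝ) + 1) * x) = if i = j then π / 2 else 0 := by
  wlog hij : j ≤ i generalizing i j
  · have := this j i (by omega)
    simp_rw [mul_comm (Real.sin (((j : ℝ) + 1) * _))] at this
    rw [this]
    simp only [eq_comm]
  have h1 : ∀ x : ℝ, Real.sin (((i : ℝ) + 1) * x) * Real.sin (((j : ℝ) + 1) * x) =
      1 / 2 * (Real.cos (((i - j : ℕ) : ℝ) * x) - Real.cos (((i + j + 2 : ℕ) : ℝ) * x)) := by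
    intro x
    have e1 : ((i - j : ℕ) : ℝ) * x = ((i : ℝ) + 1) * x - ((j : ℝ) + 1) * x := by
      rw [Nat.cast_sub hij]; ring
    have e2 : ((i + j + 2 : ℕ) : ℝ) * x = ((i : ℝ) + 1) * x + ((j : ℝ) + 1) * x := by
      push_cast; ring
    rw [e1, e2, Real.cos_sub, Real.cos_add]
    ring
  simp_rw [h1]
  rw [intervalIntegral.integral_const_mul, intervalIntegral.integral_sub
    (Continuous.intervalIntegrable (by fun_prop) _ _) (Continuous.intervalIntegrable (by fun_prop) _ _),
    integral_cos_nat, integral_cos_nat]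
  have h2 : i + j + 2 ≠ 0 := by omega
  rw [if_neg h2]
  by_cases h3 : i = j
  · subst h3; simp; ring
  · have h4 : i - j ≠ 0 := by omega
    rw [if_neg h4, if_neg h3]
    ring

/-- the orthonormal functions -/
def ph (i : ℕ) (t : ℝ) : ℝ := √(2 / π * dth t) * Real.sin (((i : ℝ) + 1) * th t)

theorem ph_mul (i j : ℕ) (t : ℝ) : ph i t * ph j t = dth t * (2 / π *
    (Real.sin (((i : ℝ) + 1) * th t) * Real.sin (((j : ℝ) + 1) * th t))) := by
  have h1 : 0 ≤ 2 / π * dth t := by
    have := dth_pos t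
    have := Real.pi_pos
    positivity
  have h2 := Real.mul_self_sqrt h1
  unfold ph
  linear_combination (Real.sin (((i : ℝ) + 1) * th t) * Real.sin (((j : ℝ) + 1) * th t)) * h2

theorem ph_ortho (i j : ℕ) : ∫ t in Ioi 0, ph i t * ph j t = if i = j then 1 else 0 := by
  simp_rw [ph_mul]
  rw [integral_th (fun x => 2 / π * (Real.sin (((i : ℝ) + 1) * x) * Real.sin (((j : ℝ) + 1) * x))),
    ← integral_Ioc_eq_integral_Ioo, ← intervalIntegral.integral_of_le Real.pi_pos.le,
    intervalIntegral.integral_const_mul, integral_sin_sin]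
  have := Real.pi_pos
  split_ifs
  · field_simp
  · simp

theorem ph_integrable (i j : ℕ) : IntegrableOn (fun t => ph i t * ph j t) (Ioi 0) := by
  simp_rw [ph_mul]
  rw [integrable_th (fun x => 2 / π * (Real.sin (((i : ℝ) + 1) * x) * Real.sin (((j : ℝ) + 1) * x)))]
  have h : Continuous (fun x : ℝ => 2 / π * (Real.sin (((i : ℝ) + 1) * x) *
    Real.sin (((j : ℝ) + 1) * x))) := by fun_prop
  exact (h.continuousOn.integrableOn_Icc).mono_set Set.Ioo_subset_Icc_self

/-- the symplectic weight in the variable `t` -/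
def spW (n : ℕ) (t : Fin n → ℝ) : ℝ :=
  (∏ i : Fin n, ∏ j ∈ Ioi i, (2 * Real.cos (th (t i)) - 2 * Real.cos (th (t j))) ^ 2) *
    ∏ i, (2 / π * dth (t i) * Real.sin (th (t i)) ^ 2)

theorem dsq_ph (n : ℕ) (t : Fin n → ℝ) : dsq (fun (i : Fin n) x => ph i x) t = spW n t := by
  unfold dsq spW
  have h1 : (Matrix.of fun (i j : Fin n) => ph i (t j)).det = (∏ j, √(2 / π * dth (t j))) *
      (Matrix.of fun (i j : Fin n) => Real.sin (((i : ℕ) + 1) * th (t j))).det := by
    rw [← det_mul_row]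
    rfl
  rw [h1, FSz.det_sin (fun j => th (t j))]
  have e4 : (∏ i : Fin n, ∏ j ∈ Ioi i, (2 * Real.cos (th (t i)) - 2 * Real.cos (th (t j))) ^ 2) =
      (∏ i : Fin n, ∏ j ∈ Ioi i, (2 * Real.cos (th (t j)) - 2 * Real.cos (th (t i)))) ^ 2 := by
    rw [← prod_pow]
    refine prod_congr rfl fun i _ => ?_
    rw [← prod_pow]
    exact prod_congr rfl fun j _ => by ring
  have e5 : ∏ i, (2 / π * dth (t i) * Real.sin (th (t i)) ^ 2) =
      (∏ j, √(2 / π * dth (t j))) ^ 2 * (∏ j, Real.sin (th (t j))) ^ 2 := by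
    rw [← prod_pow, ← prod_pow, ← prod_mul_distrib]
    refine prod_congr rfl fun i _ => ?_
    rw [Real.sq_sqrt]
    have := dth_pos (t i)
    have := Real.pi_pos
    positivity
  rw [e4, e5]
  ring

/-- one point density of the symplectic ensemble in `t` -/
def rhoS (n : ℕ) (t : ℝ) : ℝ := ∑ k : Fin n, ph k t * ph k t

/-- **Jensen's inequality in the variable `t`** -/
theorem jensen_th (n : ℕ) (f : ℝ → ℝ)
    (hf : ∀ i j : ℕ, IntegrableOn (fun t => f t * (ph i t * ph j t)) (Ioi 0)) :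
    ENNReal.ofReal ((n.factorial : ℝ) * Real.exp (∑ k : Fin n, ∫ t in Ioi 0, f t * (ph k t * ph k t))) ≤
      ∫⁻ t : Fin n → ℝ, ENNReal.ofReal (spW n t * ∏ i, Real.exp (f (t i)))
        ∂(Measure.pi fun _ => volume.restrict (Ioi 0)) := by
  have h := jensen_det (μ := volume.restrict (Ioi 0)) (fun (i : Fin n) x => ph i x) f
    (fun i j => by
      rw [ph_ortho]
      simp [Fin.ext_iff]) (fun i j => ph_integrable i j) (fun i j => hf i j)
  simpa only [dsq_ph] using h

end

end Pool.Agent.SLB
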